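import Pool.Agent.Lib.MP_a0202c_co.Local

/-!
The extension theorem: from a normal subgroup containing the point stabilisers.
-/

namespace Pool.Agent.Lib.MP_a0202c_co.Odd

open Pool.Agent.Lib.MP_a0202c_co

variable {G : Type*} [Group G] {Ω : Type*} [MulAction G Ω]

/-- **Extension theorem.** -/
theorem realisable_of_extension (x : Ω) (htr : ∀ y : Ω, ∃ g : G, g • x = y)
    (B : Subgroup G) [B.Normal] (hHB : MulAction.stabilizer G x ≤ B)
    (hfac : ∀ g : G, ∃ n ∈ Subgroup.normalizer (MulAction.stabilizer G x : Set G), g⁻¹ * n ∈ B)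
    (hB : RealisableAction B (MulAction.orbit B x)) (hθ : HasCompleteMapping (G ⧸ B)) :
    RealisableAction G Ω := by
  classical
  obtain ⟨θ, hθ1, hθ2⟩ := hθ
  obtain ⟨mB, ⟨hmB1, hmB2⟩, hmB3⟩ := hB
  choose γ hγ using htr
  -- the class of a point
  let c : Ω → G ⧸ B := fun y => (γ y : G ⧸ B)
  have hstabmul : ∀ g h : G, g • x = h • x → g⁻¹ * h ∈ MulAction.stabilizer G x := by
    intro g h e
    rw [MulAction.mem_stabilizer_iff, mul_smul, ← e, inv_smul_smul]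
  have hcx : ∀ g : G, c (g • x) = (g : G ⧸ B) := by
    intro g
    exact QuotientGroup.eq.2 (hHB (hstabmul _ _ (hγ (g • x))))
  have hcg : ∀ (g : G) (y : Ω), c (g • y) = (g : G ⧸ B) * c y := by
    intro g y
    rw [← hγ y, ← mul_smul, hcx, hcx]
    rfl
  -- right multiplications by elements of the normaliser
  let N := Subgroup.normalizer (MulAction.stabilizer G x : Set G)
  let ρ : G → Ω → Ω := fun n y => (γ y * n) • x
  have hρx : ∀ n ∈ N, ∀ g : G, ρ n (g • x) = (g * n) • x := by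
    intro n hn g
    have h1 : (γ (g • x))⁻¹ * g ∈ MulAction.stabilizer G x := hstabmul _ _ (hγ (g • x))
    have h2 : n⁻¹ * ((γ (g • x))⁻¹ * g) * n ∈ MulAction.stabilizer G x :=
      (Subgroup.mem_set_normalizer_iff''.1 hn _).1 h1
    change (γ (g • x) * n) • x = (g * n) • x
    have h3 : (γ (g • x) * n) * (n⁻¹ * ((γ (g • x))⁻¹ * g) * n) = g * n := by group
    rw [← h3, mul_smul _ (n⁻¹ * ((γ (g • x))⁻¹ * g) * n), MulAction.mem_stabilizer_iff.1 h2]
  have hρg : ∀ n ∈ N, ∀ (g : G) (y : Ω), ρ n (g • y) = g • ρ n y := by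
    intro n hn g y
    rw [← hγ y, ← mul_smul, hρx n hn, hρx n hn, ← mul_smul, mul_assoc]
  have hρρ : ∀ n ∈ N, ∀ m ∈ N, ∀ y : Ω, ρ n (ρ m y) = ρ (m * n) y := by
    intro n hn m hm y
    have hmn : m * n ∈ N := N.mul_mem hm hn
    rw [← hγ y, hρx m hm, hρx n hn, hρx _ hmn, mul_assoc]
  have hρ1 : ∀ y : Ω, ρ 1 y = y := by
    intro y
    change (γ y * 1) • x = y
    rw [mul_one, hγ]
  have hρinv : ∀ n ∈ N, ∀ y : Ω, ρ n (ρ n⁻¹ y) = y := by
    intro n hn y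
    rw [hρρ n hn _ (N.inv_mem hn), inv_mul_cancel, hρ1]
  have hρinv' : ∀ n ∈ N, ∀ y : Ω, ρ n⁻¹ (ρ n y) = y := by
    intro n hn y
    rw [hρρ _ (N.inv_mem hn) n hn, mul_inv_cancel, hρ1]
  have hcρ : ∀ n ∈ N, ∀ y : Ω, c (ρ n y) = c y * (n : G ⧸ B) := by
    intro n hn y
    change c ((γ y * n) • x) = _
    rw [hcx]
    rfl
  -- representatives
  have hrep : ∀ s : G ⧸ B, ∃ n ∈ N, (n : G ⧸ B) = s := by
    intro s
    obtain ⟨g, rfl⟩ := QuotientGroup.mk_surjective s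
    obtain ⟨n, hn, h⟩ := hfac g
    exact ⟨n, hn, (QuotientGroup.eq.2 h).symm⟩
  choose ν hνN hν using hrep
  -- the orbit of `B`
  have horb : ∀ y : Ω, y ∈ MulAction.orbit B x ↔ c y = 1 := by
    intro y
    constructor
    · rintro ⟨b, rfl⟩
      change c ((b : G) • x) = 1
      rw [hcx]
      exact (QuotientGroup.eq_one_iff _).2 b.2
    · intro h
      have : γ y ∈ B := (QuotientGroup.eq_one_iff _).1 h
      exact ⟨⟨γ y, this⟩, hγ y⟩
  have hx1 : x ∈ MulAction.orbit B x := MulAction.mem_orbit_self _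
  -- the operation of `B` extended to all points
  let M : Ω → Ω → Ω := fun u v =>
    if h : u ∈ MulAction.orbit B x ∧ v ∈ MulAction.orbit B x then (mB ⟨u, h.1⟩ ⟨v, h.2⟩ : Ω) else v
  have hM : ∀ (u v : Ω) (hu : u ∈ MulAction.orbit B x) (hv : v ∈ MulAction.orbit B x),
      M u v = (mB ⟨u, hu⟩ ⟨v, hv⟩ : Ω) := by
    intro u v hu hv
    simp only [M]
    rw [dif_pos ⟨hu, hv⟩]
  have hMmem : ∀ (u v : Ω) (hu : u ∈ MulAction.orbit B x) (hv : v ∈ MulAction.orbit B x),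
      M u v ∈ MulAction.orbit B x := by
    intro u v hu hv
    rw [hM u v hu hv]
    exact (mB _ _).2
  have hMb : ∀ b ∈ B, ∀ (u v : Ω) (hu : u ∈ MulAction.orbit B x) (hv : v ∈ MulAction.orbit B x),
      b • M u v = M (b • u) (b • v) := by
    intro b hb u v hu hv
    have hu' : b • u ∈ MulAction.orbit B x := by
      obtain ⟨b', rfl⟩ := hu
      exact ⟨⟨b, hb⟩ * b', by simp [mul_smul]⟩
    have hv' : b • v ∈ MulAction.orbit B x := by
      obtain ⟨b', rfl⟩ := hv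
      exact ⟨⟨b, hb⟩ * b', by simp [mul_smul]⟩
    rw [hM u v hu hv, hM _ _ hu' hv']
    exact congrArg Subtype.val (hmB3 ⟨b, hb⟩ ⟨u, hu⟩ ⟨v, hv⟩)
  -- the equivariant map
  let f : Ω → Ω := fun z => ρ (ν (c z) * ν (θ (c z))) (M x (ρ (ν (c z))⁻¹ z))
  have hNN : ∀ s, ν s * ν (θ s) ∈ N := fun s => N.mul_mem (hνN _) (hνN _)
  have hback : ∀ z, ρ (ν (c z))⁻¹ z ∈ MulAction.orbit B x := by
    intro z
    rw [horb, hcρ _ (N.inv_mem (hνN _))]
    have : (((ν (c z))⁻¹ : G) : G ⧸ B) = (c z)⁻¹ := by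
      rw [QuotientGroup.mk_inv, hν]
    rw [this, mul_inv_cancel]
  have hfh : ∀ h ∈ MulAction.stabilizer G x, ∀ z, f (h • z) = h • f z := by
    intro h hh z
    have h1 : c (h • z) = c z := by
      rw [hcg, (QuotientGroup.eq_one_iff h).2 (hHB hh), one_mul]
    simp only [f]
    rw [h1, hρg _ (N.inv_mem (hνN _)), ← hρg _ (hNN _), hMb h (hHB hh) _ _ hx1 (hback z),
      MulAction.mem_stabilizer_iff.1 hh]
  have hcf : ∀ z, c (f z) = c z * θ (c z) := by
    intro z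
    simp only [f]
    rw [hcρ _ (hNN _), (horb _).1 (hMmem _ _ hx1 (hback z)), one_mul]
    change ((ν (c z) : G ⧸ B)) * ((ν (θ (c z)) : G ⧸ B)) = _
    rw [hν, hν]
  have hρinj : ∀ n ∈ N, Function.Injective (ρ n) := by
    intro n hn y y' h
    rw [← hρinv' n hn y, h, hρinv' n hn]
  have hfb : Function.Bijective f := by
    constructor
    · intro z z' h
      have h1 : c z = c z' := by
        apply hθ2.injective
        simp only
        rw [← hcf, ← hcf, h]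
      simp only [f] at h
      rw [← h1] at h
      have h2 := hρinj _ (hNN _) h
      have hz' : ρ (ν (c z))⁻¹ z' ∈ MulAction.orbit B x := by
        have := hback z'
        rwa [← h1] at this
      rw [hM _ _ hx1 (hback z), hM _ _ hx1 hz'] at h2
      have h3 := Subtype.ext h2
      have h4 := (hmB1 ⟨x, hx1⟩ (mB ⟨x, hx1⟩ ⟨_, hz'⟩)).unique h3 rfl
      exact hρinj _ (N.inv_mem (hνN _)) (congrArg Subtype.val h4)
    · intro w
      obtain ⟨s, hs⟩ := hθ2.surjective (c w)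
      simp only at hs
      have hw : ρ (ν s * ν (θ s))⁻¹ w ∈ MulAction.orbit B x := by
        rw [horb, hcρ _ (N.inv_mem (hNN _))]
        have : (((ν s * ν (θ s))⁻¹ : G) : G ⧸ B) = (s * θ s)⁻¹ := by
          rw [QuotientGroup.mk_inv, QuotientGroup.mk_mul, hν, hν]
        rw [this, ← hs, mul_inv_cancel]
      obtain ⟨y, hy, _⟩ := hmB1 ⟨x, hx1⟩ ⟨_, hw⟩
      have hcz : c (ρ (ν s) y.1) = s := by
        rw [hcρ _ (hνN _), (horb _).1 y.2, one_mul, hν]
      refine ⟨ρ (ν s) y.1, ?_⟩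
      simp only [f]
      rw [hcz, hρinv' _ (hνN _), hM _ _ hx1 y.2]
      have : (mB ⟨x, hx1⟩ ⟨y.1, y.2⟩ : Ω) = ρ (ν s * ν (θ s))⁻¹ w := congrArg Subtype.val hy
      rw [this, hρinv _ (hNN _)]
  -- the operation
  let m : Ω → Ω → Ω := fun u v => γ u • f ((γ u)⁻¹ • v)
  have hmx : ∀ (g : G) (v : Ω), m (g • x) v = g • f (g⁻¹ • v) := by
    intro g v
    have h1 : g⁻¹ * γ (g • x) ∈ MulAction.stabilizer G x := hstabmul _ _ (hγ (g • x)).symm
    have h2 : γ (g • x) = g * (g⁻¹ * γ (g • x)) := by group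
    have h3 : (γ (g • x))⁻¹ • v = (g⁻¹ * γ (g • x))⁻¹ • (g⁻¹ • v) := by
      rw [← mul_smul]
      congr 1
      group
    change γ (g • x) • f ((γ (g • x))⁻¹ • v) = _
    rw [h3, hfh _ ((MulAction.stabilizer G x).inv_mem h1), ← mul_smul]
    congr 1
    group
  have hmG : ∀ (g : G) (u v : Ω), g • m u v = m (g • u) (g • v) := by
    intro g u v
    obtain ⟨k, rfl⟩ : ∃ k : G, k • x = u := ⟨γ u, hγ u⟩
    rw [hmx, ← mul_smul g k x, hmx, ← mul_smul g k (f (k⁻¹ • v)), mul_inv_rev, mul_smul k⁻¹ g⁻¹,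
      inv_smul_smul]
  -- right translations
  have hR : ∀ u : Ω, m u x = (ν (c u)⁻¹)⁻¹ •
      ρ (ν (c u)⁻¹ * ν (θ (c u)⁻¹)) (M (ν (c u)⁻¹ • u) x) := by
    intro u
    obtain ⟨s, hs⟩ : ∃ s, s = (c u)⁻¹ := ⟨_, rfl⟩
    have hcs : c ((γ u)⁻¹ • x) = s := by
      rw [hcx, QuotientGroup.mk_inv, hs]
    rw [← hs]
    have h1 : m u x = γ u • f ((γ u)⁻¹ • x) := rfl
    rw [h1]
    simp only [f]
    rw [hcs, hρx _ (N.inv_mem (hνN s))]
    have hb : ν s * γ u ∈ B := by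
      rw [← QuotientGroup.eq_one_iff, QuotientGroup.mk_mul, hν]
      change s * c u = 1
      rw [hs, inv_mul_cancel]
    have hbx : ((γ u)⁻¹ * (ν s)⁻¹) • x ∈ MulAction.orbit B x := by
      refine ⟨⟨(ν s * γ u)⁻¹, B.inv_mem hb⟩, ?_⟩
      change (ν s * γ u)⁻¹ • x = _
      rw [mul_inv_rev]
    have h2 : γ u = (ν s)⁻¹ * (ν s * γ u) := by group
    have h3 : γ u • ρ (ν s * ν (θ s)) (M x (((γ u)⁻¹ * (ν s)⁻¹) • x)) =
        (ν s)⁻¹ • ((ν s * γ u) • ρ (ν s * ν (θ s)) (M x (((γ u)⁻¹ * (ν s)⁻¹) • x))) := by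
      rw [← mul_smul (ν s)⁻¹ (ν s * γ u), ← h2]
    rw [h3, ← hρg _ (hNN s), hMb _ hb _ _ hx1 hbx,
      ← mul_smul (ν s * γ u) ((γ u)⁻¹ * (ν s)⁻¹) x]
    have h4 : ν s * γ u * ((γ u)⁻¹ * (ν s)⁻¹) = 1 := by group
    rw [h4, one_smul, mul_smul (ν s) (γ u) x, hγ]
  have hcR : ∀ u, c (m u x) = θ (c u)⁻¹ := by
    intro u
    have hu : ν (c u)⁻¹ • u ∈ MulAction.orbit B x := by
      rw [horb, hcg, hν, inv_mul_cancel]
    rw [hR, hcg, hcρ _ (hNN _), (horb _).1 (hMmem _ _ hu hx1), one_mul, QuotientGroup.mk_inv,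
      QuotientGroup.mk_mul, hν, hν, inv_mul_cancel_left]
  have hRb : Function.Bijective fun u => m u x := by
    constructor
    · intro u u' h
      simp only at h
      have h1 : (c u)⁻¹ = (c u')⁻¹ := by
        apply hθ1.injective
        rw [← hcR, ← hcR, h]
      have hu : ν (c u)⁻¹ • u ∈ MulAction.orbit B x := by
        rw [horb, hcg, hν, inv_mul_cancel]
      have hu' : ν (c u)⁻¹ • u' ∈ MulAction.orbit B x := by
        rw [horb, hcg, hν, h1, inv_mul_cancel]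
      rw [hR u, hR u', ← h1] at h
      have h2 := hρinj _ (hNN _) (smul_left_cancel _ h)
      rw [hM _ _ hu hx1, hM _ _ hu' hx1] at h2
      have h3 := Subtype.ext h2
      have h4 := (hmB2 ⟨x, hx1⟩ _).unique h3 rfl
      exact smul_left_cancel _ (congrArg Subtype.val h4)
    · intro w
      obtain ⟨s, hs⟩ := hθ1.surjective (c w)
      have hz : ρ (ν s * ν (θ s))⁻¹ (ν s • w) ∈ MulAction.orbit B x := by
        rw [horb, hcρ _ (N.inv_mem (hNN _)), hcg, hν]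
        have : (((ν s * ν (θ s))⁻¹ : G) : G ⧸ B) = (s * θ s)⁻¹ := by
          rw [QuotientGroup.mk_inv, QuotientGroup.mk_mul, hν, hν]
        rw [this, hs, mul_inv_cancel]
      obtain ⟨u0, hu0, _⟩ := hmB2 ⟨x, hx1⟩ ⟨_, hz⟩
      refine ⟨(ν s)⁻¹ • u0.1, ?_⟩
      have hcu : (c ((ν s)⁻¹ • u0.1))⁻¹ = s := by
        rw [hcg, (horb _).1 u0.2, mul_one, QuotientGroup.mk_inv, hν, inv_inv]
      simp only
      rw [hR, hcu, smul_inv_smul, hM _ _ u0.2 hx1]
      have : (mB ⟨u0.1, u0.2⟩ ⟨x, hx1⟩ : Ω) = ρ (ν s * ν (θ s))⁻¹ (ν s • w) :=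
        congrArg Subtype.val hu0
      rw [this, hρinv _ (hNN _), inv_smul_smul]
  refine ⟨m, ⟨?_, ?_⟩, hmG⟩
  · intro a b
    obtain ⟨z, hz⟩ := hfb.surjective ((γ a)⁻¹ • b)
    refine ⟨γ a • z, ?_, ?_⟩
    · change γ a • f ((γ a)⁻¹ • γ a • z) = b
      rw [inv_smul_smul, hz, smul_inv_smul]
    · intro y hy
      have h1 : γ a • f ((γ a)⁻¹ • y) = b := hy
      have h2 : f ((γ a)⁻¹ • y) = f z := by rw [hz, ← h1, inv_smul_smul]
      rw [← hfb.injective h2, smul_inv_smul]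
  · intro a b
    obtain ⟨u, hu⟩ := hRb.surjective ((γ a)⁻¹ • b)
    simp only at hu
    refine ⟨γ a • u, ?_, ?_⟩
    · have := hmG (γ a) u x
      rw [hγ] at this
      simp only
      rw [← this, hu, smul_inv_smul]
    · intro y hy
      have h1 := hmG (γ a)⁻¹ y a
      rw [hy] at h1
      have h2 : (γ a)⁻¹ • a = x := by
        rw [inv_smul_eq_iff, hγ]
      rw [h2, ← hu] at h1
      have h3 := hRb.injective h1
      rw [h3, smul_inv_smul]

end Pool.Agent.Lib.MP_a0202c_co.Odd
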