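import Pool.Agent.Lib.MP_a0202c_co.Defs

/-!
Complete mappings: the extension lemma, groups with a cyclic subgroup of index 2.
-/

namespace Pool.Agent.Lib.MP_a0202c_co.Odd

open Pool.Agent.Lib.MP_a0202c_co

variable {G : Type*} [Group G]

/-- A complete mapping given by three bijections from an index type. -/
theorem hasCompleteMapping_of_bij {J : Type*} (X Y : J → G) (hX : Function.Bijective X)
    (hY : Function.Bijective Y) (hZ : Function.Bijective fun j => X j * Y j) :
    HasCompleteMapping G := by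
  let e := Equiv.ofBijective X hX
  refine ⟨fun g => Y (e.symm g), hY.comp e.symm.bijective, ?_⟩
  have : (fun g => g * Y (e.symm g)) = (fun j => X j * Y j) ∘ e.symm := by
    funext g
    simp only [Function.comp]
    congr 1
    exact (Equiv.ofBijective_apply_symm_apply X hX g).symm
  rw [this]
  exact hZ.comp e.symm.bijective

theorem hasCompleteMapping_congr {H : Type*} [Group H] (e : G ≃* H)
    (h : HasCompleteMapping G) : HasCompleteMapping H := by
  obtain ⟨θ, h1, h2⟩ := h
  refine ⟨fun x => e (θ (e.symm x)), e.bijective.comp (h1.comp e.symm.bijective), ?_⟩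
  have : (fun x => x * e (θ (e.symm x))) = e ∘ (fun x => x * θ x) ∘ e.symm := by
    funext x
    simp
  rw [this]
  exact e.bijective.comp (h2.comp e.symm.bijective)

/-- **Hall–Paige extension lemma.** -/
theorem hasCompleteMapping_of_normal (N : Subgroup G) [N.Normal] (hN : HasCompleteMapping N)
    (hQ : HasCompleteMapping (G ⧸ N)) : HasCompleteMapping G := by
  obtain ⟨θ, h1, h2⟩ := hN
  obtain ⟨η, h3, h4⟩ := hQ
  have hout : ∀ s : G ⧸ N, ((s.out : G) : G ⧸ N) = s := fun s => QuotientGroup.out_eq' s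
  refine hasCompleteMapping_of_bij (J := (G ⧸ N) × N)
    (fun p => p.1.out * (p.2 : G)) (fun p => (θ p.2 : G) * (η p.1).out) ?_ ?_ ?_
  · constructor
    · rintro ⟨s, n⟩ ⟨s', n'⟩ h
      simp only at h
      have e1 : s = s' := by
        have := congrArg (fun g : G => (g : G ⧸ N)) h
        simp only [QuotientGroup.mk_mul, hout, (QuotientGroup.eq_one_iff _).2 n.2,
          (QuotientGroup.eq_one_iff _).2 n'.2, mul_one] at this
        exact this
      subst e1
      rw [mul_right_inj] at h
      rw [Subtype.ext h]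
    · intro g
      have hmem : ((g : G ⧸ N).out)⁻¹ * g ∈ N := by
        rw [← QuotientGroup.eq, hout]
      exact ⟨((g : G ⧸ N), ⟨_, hmem⟩), by simp⟩
  · constructor
    · rintro ⟨s, n⟩ ⟨s', n'⟩ h
      simp only at h
      have e1 : η s = η s' := by
        have := congrArg (fun g : G => (g : G ⧸ N)) h
        simp only [QuotientGroup.mk_mul, hout, (QuotientGroup.eq_one_iff _).2 (θ n).2,
          (QuotientGroup.eq_one_iff _).2 (θ n').2, one_mul] at this
        exact this
      have e2 := h3.injective e1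
      subst e2
      rw [mul_left_inj] at h
      rw [h1.injective (Subtype.ext h)]
    · intro g
      obtain ⟨s, hs⟩ := h3.surjective (g : G ⧸ N)
      have hmem : g * ((η s).out)⁻¹ ∈ N := by
        rw [← QuotientGroup.eq_one_iff, QuotientGroup.mk_mul, QuotientGroup.mk_inv, hout, hs,
          mul_inv_cancel]
      obtain ⟨n, hn⟩ := h1.surjective ⟨_, hmem⟩
      refine ⟨(s, n), ?_⟩
      simp only [hn]
      group
  · constructor
    · rintro ⟨s, n⟩ ⟨s', n'⟩ h
      simp only at h
      have e1 : s * η s = s' * η s' := by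
        have := congrArg (fun g : G => (g : G ⧸ N)) h
        simp only [QuotientGroup.mk_mul, hout, (QuotientGroup.eq_one_iff _).2 n.2,
          (QuotientGroup.eq_one_iff _).2 n'.2, (QuotientGroup.eq_one_iff _).2 (θ n).2,
          (QuotientGroup.eq_one_iff _).2 (θ n').2, mul_one, one_mul] at this
        exact this
      have e2 := h4.injective e1
      subst e2
      have e3 : (n : G) * (θ n : G) = n' * θ n' := by
        have : s.out * ((n : G) * (θ n : G)) * (η s).out =
            s.out * ((n' : G) * (θ n' : G)) * (η s).out := by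
          simpa [mul_assoc] using h
        simpa using this
      have e4 : n = n' := h2.injective (Subtype.ext e3)
      rw [e4]
    · intro g
      obtain ⟨s, hs⟩ := h4.surjective (g : G ⧸ N)
      simp only at hs
      have hmem : (s.out)⁻¹ * g * ((η s).out)⁻¹ ∈ N := by
        rw [← QuotientGroup.eq_one_iff, QuotientGroup.mk_mul, QuotientGroup.mk_mul,
          QuotientGroup.mk_inv, QuotientGroup.mk_inv, hout, hout, ← hs]
        group
      obtain ⟨n, hn⟩ := h2.surjective ⟨_, hmem⟩
      refine ⟨(s, n), ?_⟩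
      have hn' : (n : G) * (θ n : G) = (s.out)⁻¹ * g * ((η s).out)⁻¹ := congrArg Subtype.val hn
      have : s.out * (n : G) * ((θ n : G) * (η s).out) =
          s.out * ((n : G) * (θ n : G)) * (η s).out := by group
      simp only
      rw [this, hn']
      group

/-- **Groups with a cyclic subgroup of index 2.** Let `a` have order `2k`, let `b` lie outside
`⟨a⟩`, let every element be `aⁿ` or `aⁿ b`, and let `b a b⁻¹ = aᵗ`, `b² = a^(2c)`. -/
theorem hasCompleteMapping_of_cyclic_index_two [Finite G] (a b : G) (k : ℕ) (hk : 0 < k)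
    (ha : orderOf a = 2 * k) (hcard : Nat.card G = 4 * k)
    (hgen : ∀ g : G, (∃ n : ℤ, g = a ^ n) ∨ ∃ n : ℤ, g = a ^ n * b)
    (t : ℤ) (ht : b * a * b⁻¹ = a ^ t) (c : ℤ) (hb : b * b = a ^ (2 * c)) :
    HasCompleteMapping G := by
  classical
  have hba : ∀ n : ℤ, b * a ^ n = a ^ (t * n) * b := by
    intro n
    have h1 : b * a ^ n * b⁻¹ = (b * a * b⁻¹) ^ n := (conj_zpow).symm
    rw [ht, ← zpow_mul] at h1
    rw [← h1]
    group
  have hmod : ∀ m n : ℤ, m ≡ n [ZMOD (2 * k : ℤ)] → a ^ m = a ^ n := by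
    intro m n h
    rw [zpow_eq_zpow_iff_modEq, ha]
    exact_mod_cast h
  -- `t` is invertible modulo `2k`
  have htt : t * t ≡ 1 [ZMOD (2 * k : ℤ)] := by
    have h1 : b * (b * a * b⁻¹) * b⁻¹ = a := by
      have : b * (b * a * b⁻¹) * b⁻¹ = (b * b) * a * (b * b)⁻¹ := by group
      rw [this, hb]
      group
    have h2 : b * a ^ t * b⁻¹ = a ^ (t * t) := by
      rw [hba t]
      group
    rw [ht, h2] at h1
    have h3 : a ^ (t * t) = a ^ (1 : ℤ) := by rw [h1, zpow_one]
    rw [zpow_eq_zpow_iff_modEq, ha] at h3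
    exact_mod_cast h3
  have hrepr : ∀ n : ℤ, ∃ u : Fin k, n ≡ (u : ℤ) [ZMOD (2 * k : ℤ)] ∨
      n ≡ (k : ℤ) + (u : ℤ) [ZMOD (2 * k : ℤ)] := by
    intro n
    have hk' : (0 : ℤ) < 2 * k := by positivity
    have h0 := Int.emod_nonneg n hk'.ne'
    have h1 := Int.emod_lt_of_pos n hk'
    have h2 : n ≡ n % (2 * k) [ZMOD (2 * k : ℤ)] := (Int.mod_modEq n _).symm
    by_cases h3 : n % (2 * k) < k
    · refine ⟨⟨(n % (2 * k)).toNat, by omega⟩, Or.inl ?_⟩
      have : (((n % (2 * k)).toNat : ℕ) : ℤ) = n % (2 * k) := Int.toNat_of_nonneg h0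
      simp only [this]
      exact h2
    · refine ⟨⟨(n % (2 * k) - k).toNat, by omega⟩, Or.inr ?_⟩
      have : (((n % (2 * k) - k).toNat : ℕ) : ℤ) = n % (2 * k) - k :=
        Int.toNat_of_nonneg (by omega)
      simp only [this]
      have e : (k : ℤ) + (n % (2 * k) - k) = n % (2 * k) := by ring
      rw [e]
      exact h2
  have hrepr2 : ∀ n : ℤ, ∃ u : Fin k, 2 * n ≡ 2 * (u : ℤ) [ZMOD (2 * k : ℤ)] := by
    intro n
    obtain ⟨u, hu⟩ := hrepr n
    refine ⟨u, ?_⟩
    rcases hu with hu | hu
    · exact hu.mul_left 2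
    · have h1 := hu.mul_left 2
      refine h1.trans ?_
      refine (Int.modEq_iff_dvd.2 ⟨-1, by ring⟩)
  have hcancel : ∀ m n : ℤ, t * m ≡ n [ZMOD (2 * k : ℤ)] ↔ m ≡ t * n [ZMOD (2 * k : ℤ)] := by
    intro m n
    constructor
    · intro h
      have h1 := h.mul_left t
      have h2 : t * (t * m) ≡ m [ZMOD (2 * k : ℤ)] := by
        have := htt.mul_right m
        rw [one_mul] at this
        rwa [← mul_assoc]
      exact h2.symm.trans h1
    · intro h
      have h1 := h.mul_left t
      have h2 : t * (t * n) ≡ n [ZMOD (2 * k : ℤ)] := by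
        have := htt.mul_right n
        rw [one_mul] at this
        rwa [← mul_assoc]
      exact h1.trans h2
  -- `t` is odd
  have htodd : t % 2 = 1 := by
    have h1 : t * t ≡ 1 [ZMOD 2] := htt.of_mul_right _
    have h2 : t * t % 2 = 1 := h1
    rcases Int.emod_two_eq_zero_or_one t with h3 | h3
    · rw [Int.mul_emod, h3] at h2
      norm_num at h2
    · exact h3
  let X : Bool × Bool × Fin k → G := fun j => match j with
    | (false, false, u) => a ^ (u : ℤ)
    | (false, true, u) => a ^ ((k : ℤ) + u)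
    | (true, false, u) => a ^ (t * ((k : ℤ) + u)) * b
    | (true, true, u) => a ^ (t * (u : ℤ)) * b
  let Y : Bool × Bool × Fin k → G := fun j => match j with
    | (false, false, u) => a ^ (u : ℤ)
    | (false, true, u) => a ^ ((k : ℤ) + u + 1) * b
    | (true, false, u) => a ^ ((k : ℤ) + u)
    | (true, true, u) => a ^ ((u : ℤ) + 1) * b
  have hbij : ∀ W : Bool × Bool × Fin k → G, Function.Surjective W → Function.Bijective W := by
    intro W hW
    rw [Nat.bijective_iff_surjective_and_card]
    refine ⟨hW, ?_⟩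
    rw [hcard]
    simp only [Nat.card_eq_fintype_card, Fintype.card_prod, Fintype.card_bool, Fintype.card_fin]
    ring
  refine hasCompleteMapping_of_bij X Y (hbij _ ?_) (hbij _ ?_) (hbij _ ?_)
  · intro g
    rcases hgen g with ⟨n, rfl⟩ | ⟨n, rfl⟩
    · obtain ⟨u, hu | hu⟩ := hrepr n
      · exact ⟨(false, false, u), (hmod _ _ hu).symm⟩
      · exact ⟨(false, true, u), (hmod _ _ hu).symm⟩
    · obtain ⟨u, hu | hu⟩ := hrepr (t * n)
      · refine ⟨(true, true, u), ?_⟩
        have := hmod _ _ ((hcancel _ _).1 hu)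
        change a ^ (t * (u : ℤ)) * b = a ^ n * b
        rw [this]
      · refine ⟨(true, false, u), ?_⟩
        have := hmod _ _ ((hcancel _ _).1 hu)
        change a ^ (t * ((k : ℤ) + u)) * b = a ^ n * b
        rw [this]
  · intro g
    rcases hgen g with ⟨n, rfl⟩ | ⟨n, rfl⟩
    · obtain ⟨u, hu | hu⟩ := hrepr n
      · exact ⟨(false, false, u), (hmod _ _ hu).symm⟩
      · exact ⟨(true, false, u), (hmod _ _ hu).symm⟩
    · obtain ⟨u, hu | hu⟩ := hrepr (n - 1)
      · refine ⟨(true, true, u), ?_⟩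
        have h1 := hmod _ _ (hu.add_right 1)
        rw [sub_add_cancel] at h1
        change a ^ ((u : ℤ) + 1) * b = a ^ n * b
        rw [h1]
      · refine ⟨(false, true, u), ?_⟩
        have h1 := hmod _ _ (hu.add_right 1)
        rw [sub_add_cancel] at h1
        change a ^ ((k : ℤ) + u + 1) * b = a ^ n * b
        rw [h1]
  · intro g
    rcases hgen g with ⟨n, rfl⟩ | ⟨n, rfl⟩
    · rcases Int.emod_two_eq_zero_or_one n with hn | hn
      · obtain ⟨u, hu⟩ := hrepr2 (n / 2)
        refine ⟨(false, false, u), ?_⟩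
        have e : 2 * (n / 2) = n := by omega
        rw [e] at hu
        change a ^ (u : ℤ) * a ^ (u : ℤ) = a ^ n
        rw [← zpow_add, ← two_mul, hmod _ _ hu]
      · -- `2 t u + t + 2 c ≡ n`
        obtain ⟨w, hw⟩ : ∃ w : ℤ, n - t - 2 * c = 2 * w := ⟨(n - t - 2 * c) / 2, by omega⟩
        obtain ⟨u, hu⟩ := hrepr2 (t * w)
        refine ⟨(true, true, u), ?_⟩
        have h1 : t * (2 * (u : ℤ)) ≡ 2 * w [ZMOD (2 * k : ℤ)] := by
          rw [hcancel]
          have : t * (2 * w) = 2 * (t * w) := by ring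
          rw [this]
          exact hu.symm
        have h2 := h1.add_right (t + 2 * c)
        have e1 : 2 * w + (t + 2 * c) = n := by linarith
        rw [e1] at h2
        change a ^ (t * (u : ℤ)) * b * (a ^ ((u : ℤ) + 1) * b) = a ^ n
        have e2 : a ^ (t * (u : ℤ)) * b * (a ^ ((u : ℤ) + 1) * b) =
            a ^ (t * (u : ℤ)) * (b * a ^ ((u : ℤ) + 1)) * b := by group
        rw [e2, hba]
        have e3 : a ^ (t * (u : ℤ)) * (a ^ (t * ((u : ℤ) + 1)) * b) * b =
            a ^ (t * (u : ℤ)) * a ^ (t * ((u : ℤ) + 1)) * (b * b) := by group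
        rw [e3, hb, ← zpow_add, ← zpow_add, ← hmod _ _ h2]
        congr 1
        ring
    · rcases Int.emod_two_eq_zero_or_one n with hn | hn
      · -- `2 t (k + u) ≡ n`
        obtain ⟨w, hw⟩ : ∃ w : ℤ, n = 2 * w := ⟨n / 2, by omega⟩
        obtain ⟨u, hu⟩ := hrepr2 (t * w - k)
        refine ⟨(true, false, u), ?_⟩
        have h1 : t * (2 * ((k : ℤ) + u)) ≡ n [ZMOD (2 * k : ℤ)] := by
          rw [hcancel, hw]
          have h3 := hu.symm.add_right (2 * (k : ℤ))
          have e1 : 2 * (u : ℤ) + 2 * k = 2 * (k + u) := by ring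
          have e2 : 2 * (t * w - k) + 2 * (k : ℤ) = t * (2 * w) := by ring
          rwa [e1, e2] at h3
        change a ^ (t * ((k : ℤ) + u)) * b * a ^ ((k : ℤ) + u) = a ^ n * b
        rw [mul_assoc, hba, ← mul_assoc, ← zpow_add, ← hmod _ _ h1]
        congr 2
        ring
      · obtain ⟨u, hu⟩ := hrepr2 ((n - 1) / 2)
        refine ⟨(false, true, u), ?_⟩
        have e : 2 * ((n - 1) / 2) = n - 1 := by omega
        rw [e] at hu
        have h1 := hu.symm.add_right (2 * (k : ℤ) + 1)
        have h2 : n - 1 + (2 * (k : ℤ) + 1) ≡ n [ZMOD (2 * k : ℤ)] :=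
          (Int.modEq_iff_dvd.2 ⟨-1, by ring⟩)
        have h3 := h1.trans h2
        change a ^ ((k : ℤ) + u) * (a ^ ((k : ℤ) + u + 1) * b) = a ^ n * b
        rw [← mul_assoc, ← zpow_add, ← hmod _ _ h3]
        congr 2
        ring

end Pool.Agent.Lib.MP_a0202c_co.Odd
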