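import Pool.Agent.Lib.MP_a0202c_co.Odd.HP

/-!
Noncyclic finite 2-groups have complete mappings (Hall and Paige 1955).
-/

namespace Pool.Agent.Lib.MP_a0202c_co.Odd

open Pool.Agent.Lib.MP_a0202c_co

/-- Groups of exponent 2 and order `2^r`, `r ≥ 2`. -/
theorem hasCompleteMapping_of_exponent_two {Q : Type*} [Group Q] [Finite Q]
    (h2 : ∀ x : Q, x * x = 1) (r : ℕ) (hr : 2 ≤ r) (hcard : Nat.card Q = 2 ^ r) :
    HasCompleteMapping Q := by
  classical
  have hcomm : ∀ x y : Q, x * y = y * x := by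
    intro x y
    have h3 : ∀ z : Q, z⁻¹ = z := fun z => inv_eq_of_mul_eq_one_right (h2 z)
    calc x * y = (x * y)⁻¹ := (h3 _).symm
      _ = y⁻¹ * x⁻¹ := mul_inv_rev _ _
      _ = y * x := by rw [h3, h3]
  let _ : CommGroup Q := { (inferInstance : Group Q) with mul_comm := hcomm }
  let _ : Module (ZMod 2) (Additive Q) := AddCommGroup.zmodModule (n := 2) (by
    intro x
    rw [two_nsmul]
    exact h2 x.toMul)
  have : Finite (Additive Q) := ‹Finite Q›
  have hfin : Module.finrank (ZMod 2) (Additive Q) = r := by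
    have h3 := Module.natCard_eq_pow_finrank (K := ZMod 2) (V := Additive Q)
    have h4 : Nat.card (Additive Q) = 2 ^ r := hcard
    rw [h4, Nat.card_zmod] at h3
    exact (Nat.pow_right_injective (le_refl 2) h3).symm
  have hfin' : Module.finrank (ZMod 2) (GaloisField 2 r) = r := GaloisField.finrank 2 (by omega)
  let e : Additive Q ≃ₗ[ZMod 2] GaloisField 2 r :=
    LinearEquiv.ofFinrankEq _ _ (by rw [hfin, hfin'])
  obtain ⟨β, hβ0, hβ1⟩ : ∃ β : GaloisField 2 r, β ≠ 0 ∧ β ≠ 1 := by
    by_contra hcon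
    push Not at hcon
    have h3 : Nat.card (GaloisField 2 r) = 2 ^ r := GaloisField.card 2 r (by omega)
    have : Finite (GaloisField 2 r) := Nat.finite_of_card_ne_zero (by rw [h3]; positivity)
    have : Fintype (GaloisField 2 r) := Fintype.ofFinite _
    have h4 : (Finset.univ : Finset (GaloisField 2 r)) ⊆ {0, 1} := by
      intro β _
      by_cases hβ : β = 0
      · simp [hβ]
      · simp [hcon β hβ]
    have h5 := Finset.card_le_card h4
    rw [Finset.card_univ, ← Nat.card_eq_fintype_card, h3] at h5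
    have h6 : ({0, 1} : Finset (GaloisField 2 r)).card ≤ 2 := Finset.card_le_two
    have h7 : 2 ^ 2 ≤ 2 ^ r := Nat.pow_le_pow_right (by norm_num) hr
    omega
  have hβ1' : 1 + β ≠ 0 := by
    intro h3
    apply hβ1
    have : (1 : GaloisField 2 r) + 1 = 0 := CharTwo.add_self_eq_zero 1
    exact (add_left_cancel (this.trans h3.symm)).symm
  let θ : Q → Q := fun x => (e.symm (β * e (Additive.ofMul x))).toMul
  have hmulb : ∀ γ : GaloisField 2 r, γ ≠ 0 → Function.Bijective fun x => γ * x := by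
    intro γ hγ
    exact (Equiv.mulLeft₀ γ hγ).bijective
  refine ⟨θ, ?_, ?_⟩
  · exact (e.symm.bijective.comp ((hmulb β hβ0).comp e.bijective))
  · have h3 : (fun x : Q => x * θ x) =
        (fun x : Q => ((e.symm ((1 + β) * e (Additive.ofMul x))).toMul : Q)) := by
      funext x
      rw [add_mul, one_mul, map_add, LinearEquiv.symm_apply_apply]
      rfl
    rw [h3]
    exact (e.symm.bijective.comp ((hmulb _ hβ1').comp e.bijective))

/-- Powers with exponents divisible by 4. -/
theorem mem_zpowers_four {G : Type*} [Group G] {n : G} {j : ℤ} (h : j % 4 = 0) :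
    n ^ j ∈ Subgroup.zpowers (n ^ 4) := by
  obtain ⟨i, hi⟩ : ∃ i : ℤ, j = 4 * i := ⟨j / 4, by omega⟩
  refine Subgroup.mem_zpowers_iff.2 ⟨i, ?_⟩
  rw [hi, zpow_mul]
  norm_cast

/-- **Hall–Paige for 2-groups.** -/
theorem hasCompleteMapping_of_two_group : ∀ (N : ℕ) (G : Type*) [Group G] [Finite G],
    Nat.card G = N → IsPGroup 2 G → (Nat.card G = 1 ∨ ¬ IsCyclic G) → HasCompleteMapping G := by
  intro N
  induction N using Nat.strong_induction_on with
  | _ N ih =>
  intro G _ _ hcard hp hcyc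
  classical
  rcases hcyc with h1 | hcyc
  · have := (Nat.card_eq_one_iff_unique.1 h1).1
    exact ⟨id, Function.bijective_id, ⟨fun x y _ => Subsingleton.elim x y,
      fun y => ⟨y, Subsingleton.elim _ _⟩⟩⟩
  -- two maximal subgroups
  have hnt : Nontrivial G := by
    by_contra h
    rw [not_nontrivial_iff_subsingleton] at h
    exact hcyc inferInstance
  obtain ⟨m, hm⟩ := hp.exists_card_eq
  have hnorm : NormalizerCondition G :=
    haveI := hp.isNilpotent
    Group.normalizerCondition_of_isNilpotent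
  have hindex : ∀ M : Subgroup G, IsCoatom M → M.index = 2 := by
    intro M hM
    obtain ⟨i, hi⟩ := (hp.to_subgroup M).exists_card_eq
    have h1 : Nat.card M * M.index = Nat.card G := M.card_mul_index
    have hi1 : M.index ≠ 1 := fun h => hM.1 (Subgroup.index_eq_one.1 h)
    have hdvd : 2 ^ (i + 1) ∣ Nat.card G := by
      have h2 : M.index ∣ 2 ^ m := by rw [← hm, ← h1]; exact dvd_mul_left _ _
      obtain ⟨j, _, hj⟩ := (Nat.dvd_prime_pow Nat.prime_two).1 h2
      have hj0 : j ≠ 0 := by
        rintro rfl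
        exact hi1 (by rw [hj, pow_zero])
      obtain ⟨j', rfl⟩ := Nat.exists_eq_succ_of_ne_zero hj0
      rw [← h1, hi, hj, ← pow_add]
      exact pow_dvd_pow 2 (by omega)
    obtain ⟨K, hK, hMK⟩ := Sylow.exists_subgroup_card_pow_succ hdvd hi
    have hKM : M < K := by
      refine lt_of_le_of_ne hMK ?_
      rintro rfl
      rw [hi] at hK
      have := Nat.pow_right_injective (le_refl 2) hK
      omega
    have hKtop : K = ⊤ := hM.2 K hKM
    rw [hKtop, Subgroup.card_top] at hK
    rw [hi, hK, pow_succ] at h1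
    exact Nat.eq_of_mul_eq_mul_left (by positivity) h1
  obtain ⟨M1, hM1⟩ : ∃ M : Subgroup G, IsCoatom M := by
    obtain ⟨M, hM, _⟩ := (eq_top_or_exists_le_coatom (⊥ : Subgroup G)).resolve_left bot_ne_top
    exact ⟨M, hM⟩
  obtain ⟨g0, hg0⟩ : ∃ g : G, g ∉ M1 := by
    by_contra h
    push Not at h
    exact hM1.1 ((Subgroup.eq_top_iff' M1).2 h)
  obtain ⟨M2, hM2, hg0M2⟩ : ∃ M : Subgroup G, IsCoatom M ∧ g0 ∈ M := by
    obtain ⟨M, hM, hle⟩ := (eq_top_or_exists_le_coatom (Subgroup.zpowers g0)).resolve_left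
      (fun h => hcyc ⟨g0, fun x => (h ▸ Subgroup.mem_top x : x ∈ Subgroup.zpowers g0)⟩)
    exact ⟨M, hM, hle (Subgroup.mem_zpowers g0)⟩
  have hi1 := hindex M1 hM1
  have hi2 := hindex M2 hM2
  have hn1 : M1.Normal := Subgroup.normal_of_index_eq_two hi1
  have hn2 : M2.Normal := Subgroup.normal_of_index_eq_two hi2
  let K : Subgroup G := M1 ⊓ M2
  have hKn : K.Normal := Subgroup.normal_inf_normal M1 M2
  have hsq : ∀ g : G, g * g ∈ K := by
    intro g
    rw [← pow_two]
    exact ⟨Subgroup.sq_mem_of_index_two hi1 g, Subgroup.sq_mem_of_index_two hi2 g⟩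
  have hM12 : ¬ M1 ≤ M2 := by
    intro h
    have h1 : M1 = M2 := by
      by_contra hne
      exact hM2.1 (hM1.2 M2 (lt_of_le_of_ne h hne))
    exact hg0 (h1 ▸ hg0M2)
  have hKi : K.index = 4 := by
    have h1 : K.relIndex M1 * M1.index = K.index := Subgroup.relIndex_mul_index inf_le_left
    have h2 : K.relIndex M1 = M2.relIndex M1 := Subgroup.inf_relIndex_left M1 M2
    have h3 : M2.relIndex M1 ∣ 2 := by
      rw [← hi2]
      exact Subgroup.relIndex_dvd_index_of_normal M2 M1
    have h4 : M2.relIndex M1 ≠ 1 := fun h => hM12 (Subgroup.relIndex_eq_one.1 h)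
    have h5 : M2.relIndex M1 = 2 := ((Nat.dvd_prime Nat.prime_two).1 h3).resolve_left h4
    rw [← h1, h2, h5, hi1]
  have hKcard : Nat.card K * 4 = Nat.card G := by rw [← hKi]; exact K.card_mul_index
  -- quotients of order 4 and exponent 2
  have hquot : ∀ (L : Subgroup G) [L.Normal], (∀ g : G, g * g ∈ L) → L.index = 4 →
      HasCompleteMapping (G ⧸ L) := by
    intro L _ hL hLi
    refine hasCompleteMapping_of_exponent_two ?_ 2 le_rfl ?_
    · intro x
      obtain ⟨g, rfl⟩ := QuotientGroup.mk_surjective x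
      rw [← QuotientGroup.mk_mul]
      exact (QuotientGroup.eq_one_iff _).2 (hL g)
    · rw [← Subgroup.index_eq_card, hLi]
      norm_num
  have hind : ∀ (L : Subgroup G) [L.Normal], (∀ g : G, g * g ∈ L) → L.index = 4 →
      (Nat.card L = 1 ∨ ¬ IsCyclic L) → HasCompleteMapping G := by
    intro L _ hL hLi hLc
    have h1 : Nat.card L * 4 = Nat.card G := by rw [← hLi]; exact L.card_mul_index
    have h2 : 0 < Nat.card L := Nat.card_pos
    exact hasCompleteMapping_of_normal L
      (ih (Nat.card L) (by omega) L rfl (hp.to_subgroup L) hLc) (hquot L hL hLi)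
  by_cases hKc : Nat.card K = 1 ∨ ¬ IsCyclic K
  · exact hind K hsq hKi hKc
  push Not at hKc
  obtain ⟨hK1, hKcyc⟩ := hKc
  obtain ⟨n, hn⟩ := (Subgroup.isCyclic_iff_exists_zpowers_eq_top K).1 hKcyc
  have hnK : n ∈ K := by rw [← hn]; exact Subgroup.mem_zpowers n
  have hKcardn : Nat.card K = orderOf n := by rw [← hn, Nat.card_zpowers]
  obtain ⟨r, hr⟩ := (hp.to_subgroup K).exists_card_eq
  have hr0 : r ≠ 0 := by
    rintro rfl
    exact hK1 (by rw [hr, pow_zero])
  obtain ⟨r', rfl⟩ : ∃ r', r = r' + 1 := ⟨r - 1, by omega⟩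
  have hordn : orderOf n = 2 * 2 ^ r' := by rw [← hKcardn, hr, pow_succ, mul_comm]
  have hKz : ∀ g : G, g ∈ K ↔ ∃ j : ℤ, n ^ j = g := by
    intro g
    rw [← hn, Subgroup.mem_zpowers_iff]
  have h2pow : (0 : ℕ) < 2 ^ r' := by positivity
  -- conjugation
  have hconj : ∀ g : G, ∃ t : ℤ, g * n * g⁻¹ = n ^ t := by
    intro g
    obtain ⟨t, ht⟩ := (hKz _).1 (hKn.conj_mem n hnK g)
    exact ⟨t, ht.symm⟩
  have hconjz : ∀ (g : G) (t j : ℤ), g * n * g⁻¹ = n ^ t → g * n ^ j * g⁻¹ = n ^ (t * j) := by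
    intro g t j h
    rw [← conj_zpow, h, ← zpow_mul]
  have heven : ∀ j : ℤ, n ^ j = 1 → j % 2 = 0 := by
    intro j hj
    rw [← orderOf_dvd_iff_zpow_eq_one, hordn] at hj
    push_cast at hj
    have : (2 : ℤ) ∣ j := (Dvd.intro _ rfl).trans hj
    omega
  have htodd : ∀ (g : G) (t : ℤ), g * n * g⁻¹ = n ^ t → t % 2 = 1 := by
    intro g t ht
    obtain ⟨s, hs⟩ := (hKz _).1 (hsq g)
    have h1 : (g * g) * n * (g * g)⁻¹ = n := by
      rw [← hs]; group
    have h2 : (g * g) * n * (g * g)⁻¹ = g * (g * n * g⁻¹) * g⁻¹ := by group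
    rw [h2, ht, hconjz g t t ht] at h1
    have h3 : n ^ (t * t - 1) = 1 := by
      rw [zpow_sub, h1, zpow_one, mul_inv_cancel]
    have h4 := heven _ h3
    rcases Int.emod_two_eq_zero_or_one t with h5 | h5
    · have h6 : t * t % 2 = 0 := by rw [Int.mul_emod, h5]; norm_num
      omega
    · exact h5
  by_cases hgenK : ∃ g : G, Subgroup.zpowers (g * g) = K
  · -- a cyclic subgroup of index 2
    obtain ⟨a, haK⟩ := hgenK
    have hoa2 : orderOf (a * a) = 2 * 2 ^ r' := by
      rw [← hordn, ← hKcardn, ← haK, Nat.card_zpowers]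
    have hoa : orderOf a = 2 * Nat.card K := by
      obtain ⟨s, hs⟩ := (IsPGroup.iff_orderOf.1 hp) a
      have h1 : orderOf (a ^ 2) = orderOf a / Nat.gcd (orderOf a) 2 := orderOf_pow' a (by norm_num)
      rw [pow_two, hoa2, hs] at h1
      have hs0 : s ≠ 0 := by
        rintro rfl
        simp only [pow_zero, Nat.gcd_one_left, Nat.div_self (Nat.lt_irrefl 0 |> fun _ => one_pos)] at h1
        omega
      obtain ⟨s', rfl⟩ := Nat.exists_eq_succ_of_ne_zero hs0
      have h2 : Nat.gcd (2 ^ (s' + 1)) 2 = 2 := Nat.gcd_eq_right (by rw [pow_succ]; exact dvd_mul_left _ _)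
      rw [h2, pow_succ, Nat.mul_div_cancel _ (by norm_num)] at h1
      rw [hs, hKcardn, hordn, h1, pow_succ, mul_comm]
    have hai : (Subgroup.zpowers a).index = 2 := by
      have h1 : Nat.card (Subgroup.zpowers a) * (Subgroup.zpowers a).index = Nat.card G :=
        Subgroup.card_mul_index _
      rw [Nat.card_zpowers, hoa, ← hKcard] at h1
      have h2 : 0 < Nat.card K := Nat.card_pos
      have h3 : 2 * Nat.card K * (Subgroup.zpowers a).index = 2 * Nat.card K * 2 := by
        rw [h1]; ring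
      exact Nat.eq_of_mul_eq_mul_left (by positivity) h3
    obtain ⟨b, hb⟩ : ∃ b : G, b ∉ Subgroup.zpowers a := by
      by_contra h
      push Not at h
      rw [(Subgroup.eq_top_iff' _).2 h, Subgroup.index_top] at hai
      omega
    have hnorma : (Subgroup.zpowers a).Normal := Subgroup.normal_of_index_eq_two hai
    obtain ⟨t, ht⟩ := Subgroup.mem_zpowers_iff.1
      (hnorma.conj_mem a (Subgroup.mem_zpowers a) b)
    have hbb : b * b ∈ Subgroup.zpowers (a * a) := by rw [haK]; exact hsq b
    obtain ⟨c, hc⟩ := Subgroup.mem_zpowers_iff.1 hbb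
    refine hasCompleteMapping_of_cyclic_index_two a b (Nat.card K) Nat.card_pos hoa
      (by rw [← hKcard]; ring) ?_ t ht.symm c ?_
    · intro g
      by_cases hg : g ∈ Subgroup.zpowers a
      · obtain ⟨j, hj⟩ := Subgroup.mem_zpowers_iff.1 hg
        exact Or.inl ⟨j, hj.symm⟩
      · have h1 : g * b⁻¹ ∈ Subgroup.zpowers a := by
          rw [Subgroup.mul_mem_iff_of_index_two hai]
          constructor
          · intro h; exact absurd h hg
          · intro h; exact absurd ((Subgroup.inv_mem_iff _).1 h) hb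
        obtain ⟨j, hj⟩ := Subgroup.mem_zpowers_iff.1 h1
        exact Or.inr ⟨j, by rw [hj]; group⟩
    · rw [← hc, ← pow_two a, ← zpow_natCast a 2, ← zpow_mul]
      norm_cast
  · -- all squares are even powers of `n`
    have hsq2 : ∀ g : G, ∃ j : ℤ, g * g = n ^ (2 * j) := by
      intro g
      obtain ⟨s, hs⟩ := (hKz _).1 (hsq g)
      rcases Int.emod_two_eq_zero_or_one s with h5 | h5
      · refine ⟨s / 2, ?_⟩
        have : 2 * (s / 2) = s := by omega
        rw [this, hs]
      · exfalso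
        apply hgenK
        refine ⟨g, ?_⟩
        rw [← hs, ← hn]
        have hcop : IsCoprime s (orderOf n : ℤ) := by
          rw [hordn, ← pow_succ']
          push_cast
          refine IsCoprime.pow_right ?_
          rw [Int.isCoprime_iff_gcd_eq_one]
          rw [Int.gcd_comm]
          have h6 : s = 2 * (s / 2) + 1 := by omega
          rw [h6]
          simp
        obtain ⟨u, v, huv⟩ := hcop
        refine le_antisymm (Subgroup.zpowers_le.2 (Subgroup.zpow_mem _ (Subgroup.mem_zpowers n) s)) ?_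
        refine Subgroup.zpowers_le.2 (Subgroup.mem_zpowers_iff.2 ⟨u, ?_⟩)
        rw [← zpow_mul]
        have h7 : s * u = 1 - orderOf n * v := by linarith [mul_comm s u, mul_comm (orderOf n : ℤ) v]
        rw [h7, zpow_sub, zpow_one, zpow_mul]
        norm_cast
        rw [pow_orderOf_eq_one, one_zpow, inv_one, mul_one]
    let K2 : Subgroup G := Subgroup.zpowers (n ^ 2)
    have hK2mem : ∀ g : G, g ∈ K2 ↔ ∃ j : ℤ, n ^ (2 * j) = g := by
      intro g
      rw [Subgroup.mem_zpowers_iff]
      refine exists_congr fun j => ?_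
      rw [zpow_mul]
      norm_cast
    have hK2n : K2.Normal := by
      refine ⟨fun g hg x => ?_⟩
      obtain ⟨j, rfl⟩ := (hK2mem g).1 hg
      obtain ⟨t, ht⟩ := hconj x
      rw [hconjz x t _ ht]
      exact (hK2mem _).2 ⟨t * j, by congr 1; ring⟩
    have hsqK2 : ∀ g : G, g * g ∈ K2 := by
      intro g
      obtain ⟨j, hj⟩ := hsq2 g
      exact (hK2mem _).2 ⟨j, hj.symm⟩
    have hK2card : Nat.card K2 = 2 ^ r' := by
      rw [Nat.card_zpowers, orderOf_pow' n (by norm_num), hordn, Nat.gcd_mul_right_left]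
      rw [Nat.mul_div_cancel_left _ (by norm_num)]
    have hG8 : Nat.card G = 8 * 2 ^ r' := by
      rw [← hKcard, hKcardn, hordn]; ring
    by_cases hr1 : r' = 0
    · -- elementary abelian of order 8
      subst hr1
      refine hasCompleteMapping_of_exponent_two ?_ 3 (by norm_num) (by rw [hG8]; norm_num)
      intro g
      have h1 := hsqK2 g
      have h2 : K2 = ⊥ := Subgroup.card_eq_one.1 (by rw [hK2card, pow_zero])
      rw [h2] at h1
      exact Subgroup.mem_bot.1 h1
    obtain ⟨r'', rfl⟩ : ∃ r'', r' = r'' + 1 := ⟨r' - 1, by omega⟩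
    -- find `g` outside `K` with square in `⟨n⁴⟩`
    obtain ⟨u, hu1, hu2⟩ : ∃ u ∈ M1, u ∉ M2 := by
      by_contra h
      push Not at h
      exact hM12 h
    have hex1 : ∃ g : G, g ∉ K ∧ ∃ t : ℤ, g * n * g⁻¹ = n ^ t ∧ t % 4 = 1 := by
      obtain ⟨t, ht⟩ := hconj u
      obtain ⟨s, hs⟩ := hconj g0
      have ht1 := htodd u t ht
      have hs1 := htodd g0 s hs
      have huK : u ∉ K := fun h => hu2 h.2
      have hg0K : g0 ∉ K := fun h => hg0 h.1
      by_cases ht4 : t % 4 = 1
      · exact ⟨u, huK, t, ht, ht4⟩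
      by_cases hs4 : s % 4 = 1
      · exact ⟨g0, hg0K, s, hs, hs4⟩
      refine ⟨u * g0, ?_, t * s, ?_, ?_⟩
      · intro h
        exact hg0 ((M1.mul_mem_cancel_left hu1).1 h.1)
      · have : u * g0 * n * (u * g0)⁻¹ = u * (g0 * n * g0⁻¹) * u⁻¹ := by group
        rw [this, hs, hconjz u t s ht]
      · have h1 : t % 4 = 3 := by omega
        have h2 : s % 4 = 3 := by omega
        rw [Int.mul_emod, h1, h2]
        norm_num
    have hex2 : ∃ g : G, g ∉ K ∧ g * g ∈ Subgroup.zpowers (n ^ 4) := by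
      obtain ⟨g, hgK, t, ht, ht4⟩ := hex1
      obtain ⟨j, hj⟩ := hsq2 g
      rcases Int.emod_two_eq_zero_or_one j with h5 | h5
      · refine ⟨g, hgK, ?_⟩
        rw [hj]
        exact mem_zpowers_four (by omega)
      · refine ⟨g * n, ?_, ?_⟩
        · intro h
          exact hgK ((K.mul_mem_cancel_right hnK).1 h)
        · have h1 : g * n * (g * n) = (g * n * g⁻¹) * (g * g) * n := by group
          rw [h1, ht, hj, ← zpow_add, ← zpow_add_one]
          exact mem_zpowers_four (by omega)
    obtain ⟨g, hgK, hg4⟩ := hex2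
    have hg2 : g ∉ K2 := by
      intro h
      obtain ⟨j, rfl⟩ := (hK2mem g).1 h
      exact hgK (K.zpow_mem hnK _)
    -- the subgroup `⟨n², g⟩`
    have hcommQ : ∀ x y : G ⧸ K2, x * y = y * x := by
      have h3 : ∀ z : G ⧸ K2, z * z = 1 := by
        intro z
        obtain ⟨z, rfl⟩ := QuotientGroup.mk_surjective z
        rw [← QuotientGroup.mk_mul]
        exact (QuotientGroup.eq_one_iff _).2 (hsqK2 z)
      have h4 : ∀ z : G ⧸ K2, z⁻¹ = z := fun z => inv_eq_of_mul_eq_one_right (h3 z)
      intro x y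
      calc x * y = (x * y)⁻¹ := (h4 _).symm
        _ = y⁻¹ * x⁻¹ := mul_inv_rev _ _
        _ = y * x := by rw [h4, h4]
    let L : Subgroup G := (Subgroup.zpowers (g : G ⧸ K2)).comap (QuotientGroup.mk' K2)
    have hLn : L.Normal := by
      refine ⟨fun x hx y => ?_⟩
      rw [Subgroup.mem_comap] at hx ⊢
      have : (QuotientGroup.mk' K2) (y * x * y⁻¹) = (QuotientGroup.mk' K2) x := by
        rw [map_mul, map_mul, hcommQ ((QuotientGroup.mk' K2) y), mul_assoc, ← map_mul,
          mul_inv_cancel, map_one, mul_one]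
      rwa [this]
    have hLmem : ∀ x : G, x ∈ L ↔ x ∈ K2 ∨ g⁻¹ * x ∈ K2 := by
      intro x
      rw [Subgroup.mem_comap, Subgroup.mem_zpowers_iff]
      have h3 : (g : G ⧸ K2) * (g : G ⧸ K2) = 1 := by
        rw [← QuotientGroup.mk_mul]
        exact (QuotientGroup.eq_one_iff _).2 (hsqK2 g)
      constructor
      · rintro ⟨i, hi⟩
        rcases Int.emod_two_eq_zero_or_one i with h5 | h5
        · left
          have h6 : i = 2 * (i / 2) := by omega
          rw [h6, zpow_mul, zpow_ofNat, pow_two, h3, one_zpow] at hi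
          exact (QuotientGroup.eq_one_iff _).1 hi.symm
        · right
          have h6 : i = 2 * (i / 2) + 1 := by omega
          rw [h6, zpow_add_one, zpow_mul, zpow_ofNat, pow_two, h3, one_zpow, one_mul] at hi
          exact QuotientGroup.eq.1 hi
      · rintro (h | h)
        · exact ⟨0, by rw [zpow_zero]; exact ((QuotientGroup.eq_one_iff _).2 h).symm⟩
        · exact ⟨1, by rw [zpow_one]; exact QuotientGroup.eq.2 h⟩
    have hL2 : ∀ x : G, x * x ∈ L := fun x => (hLmem _).2 (Or.inl (hsqK2 x))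
    have hLcard : Nat.card L = 2 * Nat.card K2 := by
      have h1 : K2.relIndex L = 2 := by
        have hle : K2 ≤ L := fun x hx => (hLmem x).2 (Or.inl hx)
        have h2 : (K2.subgroupOf L).index = 2 := by
          rw [Subgroup.index_eq_two_iff]
          refine ⟨⟨g, (hLmem g).2 (Or.inr (by rw [inv_mul_cancel]; exact K2.one_mem))⟩, ?_⟩
          intro x
          rw [Subgroup.mem_subgroupOf, Subgroup.mem_subgroupOf]
          simp only [Subgroup.coe_mul]
          rcases (hLmem x.1).1 x.2 with h | h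
          · refine Or.inr ⟨h, fun h5 => hg2 ((K2.mul_mem_cancel_left h).1 h5)⟩
          · refine Or.inl ⟨?_, fun h5 => hg2 ?_⟩
            · have h6 : (x.1 : G) * g = (x.1 * g⁻¹) * (g * g) := by group
              have h7 : (x.1 : G) * g⁻¹ ∈ K2 := by
                have := hK2n.conj_mem _ h g
                simpa [mul_assoc] using this
              rw [h6]
              exact K2.mul_mem h7 (hsqK2 g)
            · have h6 : g = x.1 * (g⁻¹ * x.1)⁻¹ := by group
              rw [h6]
              exact K2.mul_mem h5 (K2.inv_mem h)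
        exact h2
      have hle : K2 ≤ L := fun x hx => (hLmem x).2 (Or.inl hx)
      have h3 : Nat.card K2 * K2.relIndex L = Nat.card L := by
        have h4 := Subgroup.card_mul_index (K2.subgroupOf L)
        rwa [Nat.card_congr (Subgroup.subgroupOfEquivOfLe hle).toEquiv] at h4
      rw [← h3, h1, mul_comm]
    have hLi : L.index = 4 := by
      have h1 : Nat.card L * L.index = Nat.card G := L.card_mul_index
      rw [hLcard, hK2card, hG8] at h1
      have h2 : 2 * 2 ^ (r'' + 1) * L.index = 2 * 2 ^ (r'' + 1) * 4 := by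
        rw [h1]; ring
      exact Nat.eq_of_mul_eq_mul_left (by positivity) h2
    refine hind L hL2 hLi (Or.inr ?_)
    intro hcycL
    obtain ⟨h, hh⟩ := (Subgroup.isCyclic_iff_exists_zpowers_eq_top L).1 hcycL
    have hhL : h ∈ L := by rw [← hh]; exact Subgroup.mem_zpowers h
    have hordh : orderOf h = 2 * 2 ^ (r'' + 1) := by
      rw [← Nat.card_zpowers, hh, hLcard, hK2card]
    have hhg : g⁻¹ * h ∈ K2 := by
      rcases (hLmem h).1 hhL with h1 | h1
      · exfalso
        have h2 : L ≤ K2 := by rw [← hh]; exact Subgroup.zpowers_le.2 h1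
        exact hg2 (h2 ((hLmem g).2 (Or.inr (by rw [inv_mul_cancel]; exact K2.one_mem))))
      · exact h1
    obtain ⟨j, hj⟩ := (hK2mem _).1 hhg
    have hhj : h = g * n ^ (2 * j) := by rw [hj]; group
    obtain ⟨t, ht⟩ := hconj g
    have ht1 := htodd g t ht
    have hh4 : h * h ∈ Subgroup.zpowers (n ^ 4) := by
      have h1 : h * h = (g * n ^ (2 * j) * g⁻¹) * (g * g) * n ^ (2 * j) := by
        rw [hhj]; group
      obtain ⟨i, hi⟩ := Subgroup.mem_zpowers_iff.1 hg4
      have h2 : g * g = n ^ (4 * i) := by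
        rw [← hi, zpow_mul]; norm_cast
      rw [h1, hconjz g t _ ht, h2, ← zpow_add, ← zpow_add]
      refine mem_zpowers_four ?_
      obtain ⟨w, hw⟩ : ∃ w : ℤ, t = 2 * w + 1 := ⟨t / 2, by omega⟩
      have h3 : t * (2 * j) + 4 * i + 2 * j = 4 * (w * j + j + i) := by rw [hw]; ring
      rw [h3]
      omega
    have h1 : orderOf (h * h) ∣ Nat.card (Subgroup.zpowers (n ^ 4)) := by
      have := orderOf_dvd_natCard (⟨h * h, hh4⟩ : Subgroup.zpowers (n ^ 4))
      rwa [Subgroup.orderOf_mk] at this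
    have h2 : orderOf (h * h) = 2 ^ (r'' + 1) := by
      rw [← pow_two, orderOf_pow' h (by norm_num), hordh, Nat.gcd_mul_right_left]
      rw [Nat.mul_div_cancel_left _ (by norm_num)]
    have h3 : Nat.card (Subgroup.zpowers (n ^ 4)) = 2 ^ r'' := by
      rw [Nat.card_zpowers, orderOf_pow' n (by norm_num), hordn]
      have h4 : 2 * 2 ^ (r'' + 1) = 4 * 2 ^ r'' := by ring
      rw [h4, Nat.gcd_mul_right_left, Nat.mul_div_cancel_left _ (by norm_num)]
    rw [h2, h3] at h1
    have h4 := Nat.le_of_dvd (by positivity) h1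
    have h5 : 2 ^ (r'' + 1) = 2 * 2 ^ r'' := by ring
    have h6 : 0 < 2 ^ r'' := by positivity
    omega

end Pool.Agent.Lib.MP_a0202c_co.Odd
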