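import Mathlib

/-!
A matching lemma: two maps from `P` to `O` and to `O'` with finite nonempty fibres of the same
size at every point of `P` can be matched by a bijection from `O` to `O'`.
-/

namespace Pool.Agent.Lib.MP_a0202c_co.Odd

variable {P O O' : Type*}

theorem exists_injective_of_fibres (q : P → O) (q' : P → O')
    (hfin : ∀ X, (q ⁻¹' {X}).Finite) (hne : ∀ X, (q ⁻¹' {X}).Nonempty)
    (hfin' : ∀ X, (q' ⁻¹' {X}).Finite)
    (hcard : ∀ p, (q' ⁻¹' {q' p}).ncard = (q ⁻¹' {q p}).ncard) :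
    ∃ f : O → O', Function.Injective f ∧ ∀ X, ∃ p, q p = X ∧ q' p = f X := by
  classical
  let F : O → Finset P := fun X => (hfin X).toFinset
  let F' : O' → Finset P := fun X => (hfin' X).toFinset
  have hF : ∀ X p, p ∈ F X ↔ q p = X := by
    intro X p
    simp [F]
  have hF' : ∀ X p, p ∈ F' X ↔ q' p = X := by
    intro X p
    simp [F']
  let c : O → ℕ := fun X => (q ⁻¹' {X}).ncard
  let c' : O' → ℕ := fun X => (q' ⁻¹' {X}).ncard
  have hcF : ∀ X, (F X).card = c X := by
    intro X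
    simp only [F, c]
    rw [Set.ncard_eq_toFinset_card _ (hfin X)]
  have hcF' : ∀ X, (F' X).card = c' X := by
    intro X
    simp only [F', c']
    rw [Set.ncard_eq_toFinset_card _ (hfin' X)]
  have hcpos : ∀ X, 0 < c X := by
    intro X
    rw [← hcF, Finset.card_pos]
    obtain ⟨p, hp⟩ := hne X
    exact ⟨p, (hF X p).2 hp⟩
  let t : O → Finset O' := fun X => (F X).image (fun p => q' p)
  have hsum : ∀ s : Finset O, ∑ p ∈ s.biUnion F, (1 / (c (q p) : ℚ)) = s.card := by
    intro s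
    rw [Finset.sum_biUnion]
    · have : ∀ X ∈ s, ∑ p ∈ F X, (1 / (c (q p) : ℚ)) = 1 := by
        intro X _
        have h1 : ∑ p ∈ F X, (1 / (c (q p) : ℚ)) = ∑ p ∈ F X, (1 / (c X : ℚ)) := by
          refine Finset.sum_congr rfl fun p hp => ?_
          rw [(hF X p).1 hp]
        rw [h1, Finset.sum_const, hcF, nsmul_eq_mul]
        have := hcpos X
        field_simp
      rw [Finset.sum_congr rfl this]
      simp
    · intro X _ Y _ hXY
      rw [Function.onFun, Finset.disjoint_left]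
      intro p hp hp'
      exact hXY (((hF X p).1 hp).symm.trans ((hF Y p).1 hp'))
  have hsum' : ∀ s : Finset O', ∑ p ∈ s.biUnion F', (1 / (c' (q' p) : ℚ)) ≤ s.card := by
    intro s
    rw [Finset.sum_biUnion]
    · have : ∀ X ∈ s, ∑ p ∈ F' X, (1 / (c' (q' p) : ℚ)) ≤ 1 := by
        intro X _
        have h1 : ∑ p ∈ F' X, (1 / (c' (q' p) : ℚ)) = ∑ p ∈ F' X, (1 / (c' X : ℚ)) := by
          refine Finset.sum_congr rfl fun p hp => ?_
          rw [(hF' X p).1 hp]
        rw [h1, Finset.sum_const, hcF', nsmul_eq_mul]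
        rcases Nat.eq_zero_or_pos (c' X) with h0 | h0
        · rw [h0]; simp
        · have : (c' X : ℚ) ≠ 0 := by exact_mod_cast h0.ne'
          rw [mul_one_div_cancel this]
      refine (Finset.sum_le_sum this).trans ?_
      simp
    · intro X _ Y _ hXY
      rw [Function.onFun, Finset.disjoint_left]
      intro p hp hp'
      exact hXY (((hF' X p).1 hp).symm.trans ((hF' Y p).1 hp'))
  have hall : ∀ s : Finset O, s.card ≤ (s.biUnion t).card := by
    intro s
    have h1 := hsum s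
    have h2 := hsum' (s.biUnion t)
    have h3 : ∑ p ∈ s.biUnion F, (1 / (c (q p) : ℚ)) ≤
        ∑ p ∈ (s.biUnion t).biUnion F', (1 / (c' (q' p) : ℚ)) := by
      have h4 : ∑ p ∈ s.biUnion F, (1 / (c (q p) : ℚ)) =
          ∑ p ∈ s.biUnion F, (1 / (c' (q' p) : ℚ)) := by
        refine Finset.sum_congr rfl fun p _ => ?_
        simp only [c, c']
        rw [hcard]
      rw [h4]
      refine Finset.sum_le_sum_of_subset_of_nonneg ?_ (fun p _ _ => by positivity)
      intro p hp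
      rw [Finset.mem_biUnion] at hp
      obtain ⟨X, hX, hp⟩ := hp
      rw [Finset.mem_biUnion]
      refine ⟨q' p, ?_, (hF' _ _).2 rfl⟩
      rw [Finset.mem_biUnion]
      exact ⟨X, hX, Finset.mem_image.2 ⟨p, hp, rfl⟩⟩
    rw [h1] at h3
    exact_mod_cast h3.trans h2
  obtain ⟨f, hf, hft⟩ := (Finset.all_card_le_biUnion_card_iff_exists_injective t).1 hall
  refine ⟨f, hf, fun X => ?_⟩
  obtain ⟨p, hp, hp'⟩ := Finset.mem_image.1 (hft X)
  exact ⟨p, (hF X p).1 hp, hp'⟩

theorem exists_equiv_of_fibres (q : P → O) (q' : P → O')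
    (hfin : ∀ X, (q ⁻¹' {X}).Finite) (hne : ∀ X, (q ⁻¹' {X}).Nonempty)
    (hfin' : ∀ X, (q' ⁻¹' {X}).Finite) (hne' : ∀ X, (q' ⁻¹' {X}).Nonempty)
    (hcard : ∀ p, (q' ⁻¹' {q' p}).ncard = (q ⁻¹' {q p}).ncard) :
    ∃ σ : O ≃ O', ∀ X, ∃ p, q p = X ∧ q' p = σ X := by
  obtain ⟨f, hf, hf'⟩ := exists_injective_of_fibres q q' hfin hne hfin' hcard
  obtain ⟨g, hg, hg'⟩ := exists_injective_of_fibres q' q hfin' hne' hfin
    (fun p => (hcard p).symm)
  obtain ⟨h, hb, hR⟩ := Function.Embedding.schroeder_bernstein_of_rel hf hg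
    (fun X Y => ∃ p, q p = X ∧ q' p = Y) hf' (by
      intro Y
      obtain ⟨p, hp, hp'⟩ := hg' Y
      exact ⟨p, hp', hp⟩)
  exact ⟨Equiv.ofBijective h hb, hR⟩

end Pool.Agent.Lib.MP_a0202c_co.Odd
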