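import Pool.Agent.Lib.MP_a0202c_co.Local

/-!
The Hall–Paige obstruction for transitive groups.
-/

namespace Pool.Agent.Lib.MP_a0202c_co.Odd

open Pool.Agent.Lib.MP_a0202c_co

variable {G : Type*} [Group G] {Ω : Type*} [MulAction G Ω]

/-- **Hall–Paige obstruction.** -/
theorem prod_orbital_eq_one [Finite Ω] (x : Ω) (htr : ∀ y : Ω, ∃ g : G, g • x = y)
    (hreal : RealisableAction G Ω) {A : Type*} [CommGroup A] (χ : G →* A)
    (d : MulAction.orbitRel.Quotient G (Ω × Ω) → A)
    (hd : ∀ (a : Ω) (g : G), d (orbital G a (g • a)) = χ g) :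
    ∏ᶠ X, d X = 1 := by
  classical
  have : Finite (MulAction.orbitRel.Quotient G (Ω × Ω)) := Quotient.finite _
  have : Fintype (MulAction.orbitRel.Quotient G (Ω × Ω)) := Fintype.ofFinite _
  obtain ⟨σ, τ, h⟩ := realisableAction_iff_orbital.1 hreal
  have hmul : ∀ a b c : Ω, d (orbital G a c) = d (orbital G a b) * d (orbital G b c) := by
    intro a b c
    obtain ⟨ga, hga⟩ := htr a
    obtain ⟨gb, hgb⟩ := htr b
    obtain ⟨gc, hgc⟩ := htr c
    have e1 : (gb * ga⁻¹) • a = b := by rw [mul_smul, ← hga, inv_smul_smul, hgb]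
    have e2 : (gc * gb⁻¹) • b = c := by rw [mul_smul, ← hgb, inv_smul_smul, hgc]
    have e3 : (gc * ga⁻¹) • a = c := by rw [mul_smul, ← hga, inv_smul_smul, hgc]
    have h1 := hd a (gb * ga⁻¹)
    have h2 := hd b (gc * gb⁻¹)
    have h3 := hd a (gc * ga⁻¹)
    rw [e1] at h1
    rw [e2] at h2
    rw [e3] at h3
    rw [h1, h2, h3, ← map_mul]
    have : χ (gb * ga⁻¹ * (gc * gb⁻¹)) = χ (gc * ga⁻¹) := by
      simp only [map_mul, map_inv]
      rw [mul_comm (χ gb) _, mul_assoc, mul_comm (χ gb) (χ gc * (χ gb)⁻¹), mul_assoc,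
        inv_mul_cancel, mul_one, mul_comm]
    rw [this]
  have key : ∀ X, d (σ X) = d X * d (τ X) := by
    intro X
    obtain ⟨a, b, c, h1, h2, h3, _⟩ := h X
    rw [← h2, ← h3, ← h1]
    exact hmul a b c
  rw [finprod_eq_prod_of_fintype]
  have h1 : ∏ X, d (σ X) = ∏ X, d X := Equiv.prod_comp σ d
  have h2 : ∏ X, d (τ X) = ∏ X, d X := Equiv.prod_comp τ d
  have h3 : ∏ X, d (σ X) = (∏ X, d X) * ∏ X, d (τ X) := by
    rw [← Finset.prod_mul_distrib]
    exact Finset.prod_congr rfl fun X _ => key X
  rw [h1, h2] at h3
  exact left_eq_mul.1 h3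

theorem orderOf_two_unique {A : Type*} [CommGroup A] [Finite A] [IsCyclic A] {s t : A}
    (hs : s ≠ 1) (hs2 : s * s = 1) (ht : t ≠ 1) (ht2 : t * t = 1) : s = t := by
  classical
  have : Fintype A := Fintype.ofFinite A
  have h := IsCyclic.card_pow_eq_one_le (α := A) (n := 2) (by norm_num)
  by_contra hne
  have hsub : ({1, s, t} : Finset A) ⊆ Finset.univ.filter (fun a : A => a ^ 2 = 1) := by
    intro a ha
    simp only [Finset.mem_insert, Finset.mem_singleton] at ha
    simp only [Finset.mem_filter, Finset.mem_univ, true_and]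
    rcases ha with rfl | rfl | rfl
    · simp
    · rw [pow_two, hs2]
    · rw [pow_two, ht2]
  have h3 := Finset.card_le_card hsub
  have h4 : ({1, s, t} : Finset A).card = 3 := by
    rw [Finset.card_insert_of_notMem, Finset.card_insert_of_notMem, Finset.card_singleton]
    · simpa using hne
    · simp only [Finset.mem_insert, Finset.mem_singleton, not_or]
      exact ⟨hs.symm, ht.symm⟩
  omega

/-- A transitive group with a normal subgroup of odd order containing the point stabilisers and
with cyclic quotient of even order is not realisable. -/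
theorem not_realisable_of_cyclic_quotient [Finite G] [Finite Ω] (x : Ω)
    (htr : ∀ y : Ω, ∃ g : G, g • x = y)
    {A : Type*} [CommGroup A] [Finite A] [IsCyclic A] (χ : G →* A)
    (hsur : Function.Surjective χ) (hodd : Odd (Nat.card χ.ker)) (heven : Even (Nat.card A))
    (hker : MulAction.stabilizer G x ≤ χ.ker) : ¬ RealisableAction G Ω := by
  classical
  intro hreal
  have hfq : Finite (MulAction.orbitRel.Quotient G (Ω × Ω)) := Quotient.finite _
  have : Fintype (MulAction.orbitRel.Quotient G (Ω × Ω)) := Fintype.ofFinite _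
  have : Fintype Ω := Fintype.ofFinite _
  choose γ hγ using htr
  let u : Ω → A := fun y => χ (γ y)
  have hu : ∀ (g : G) (y : Ω), u (g • y) = χ g * u y := by
    intro g y
    have h1 : (γ (g • y))⁻¹ * (g * γ y) ∈ χ.ker := by
      apply hker
      rw [MulAction.mem_stabilizer_iff, mul_smul, mul_smul, hγ, inv_smul_eq_iff, hγ]
    rw [MonoidHom.mem_ker, map_mul, map_mul, map_inv, inv_mul_eq_one] at h1
    exact h1
  let d : MulAction.orbitRel.Quotient G (Ω × Ω) → A :=
    Quotient.lift (fun p : Ω × Ω => (u p.1)⁻¹ * u p.2) (by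
      rintro ⟨a, b⟩ ⟨a', b'⟩ h
      obtain ⟨g, hg⟩ := h
      have h1 : g • a' = a := congrArg Prod.fst hg
      have h2 : g • b' = b := congrArg Prod.snd hg
      subst h1 h2
      simp only
      rw [hu, hu, mul_inv_rev, mul_assoc, inv_mul_cancel_left])
  have hd : ∀ a b, d (orbital G a b) = (u a)⁻¹ * u b := fun a b => rfl
  have hprod := prod_orbital_eq_one x (fun y => ⟨γ y, hγ y⟩) hreal χ d (by
    intro a g
    rw [hd, hu, mul_comm (χ g), inv_mul_cancel_left])
  rw [finprod_eq_prod_of_fintype] at hprod
  -- the involution of `A`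
  obtain ⟨s0, hs0, hs02⟩ : ∃ s : A, s ≠ 1 ∧ s * s = 1 := by
    obtain ⟨s, hs⟩ := exists_prime_orderOf_dvd_card' (G := A) 2 heven.two_dvd
    refine ⟨s, ?_, ?_⟩
    · intro h
      rw [h, orderOf_one] at hs
      norm_num at hs
    · rw [← pow_two, ← hs, pow_orderOf_eq_one]
  -- transposition
  let tr : MulAction.orbitRel.Quotient G (Ω × Ω) → MulAction.orbitRel.Quotient G (Ω × Ω) :=
    Quotient.lift (fun p : Ω × Ω => orbital G p.2 p.1) (by
      rintro ⟨a, b⟩ ⟨a', b'⟩ h
      obtain ⟨g, hg⟩ := h
      have h1 : g • a' = a := congrArg Prod.fst hg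
      have h2 : g • b' = b := congrArg Prod.snd hg
      subst h1 h2
      simp only
      exact orbital_smul g _ _)
  have htr' : ∀ a b, tr (orbital G a b) = orbital G b a := fun a b => rfl
  have hdtr : ∀ X, d X * d (tr X) = 1 := by
    intro X
    obtain ⟨a, b, rfl⟩ := exists_orbital X
    rw [htr', hd, hd]
    group
  have htrtr : ∀ X, tr (tr X) = X := by
    intro X
    obtain ⟨a, b, rfl⟩ := exists_orbital X
    rfl
  have h1 : ∏ X ∈ Finset.univ.filter (fun X => ¬ d X = s0), d X = 1 := by
    refine Finset.prod_involution (fun X _ => tr X) (fun X _ => hdtr X) ?_ ?_ ?_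
    · intro X hX hne heq
      simp only [Finset.mem_filter, Finset.mem_univ, true_and] at hX
      apply hX
      refine orderOf_two_unique hne ?_ hs0 hs02
      have := hdtr X
      rwa [heq] at this
    · intro X hX
      simp only [Finset.mem_filter, Finset.mem_univ, true_and] at hX ⊢
      intro h
      apply hX
      have h2 := hdtr X
      rw [h] at h2
      calc d X = d X * (s0 * s0) := by rw [hs02, mul_one]
        _ = s0 := by rw [← mul_assoc, h2, one_mul]
    · intro X _
      exact htrtr X
  have h2 : ∏ X ∈ Finset.univ.filter (fun X => d X = s0), d X =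
      s0 ^ (Finset.univ.filter (fun X => d X = s0)).card := by
    rw [← Finset.prod_const]
    exact Finset.prod_congr rfl fun X hX => (Finset.mem_filter.1 hX).2
  have h3 : s0 ^ (Finset.univ.filter (fun X => d X = s0)).card = 1 := by
    have := Finset.prod_filter_mul_prod_filter_not (Finset.univ)
      (fun X => d X = s0) d
    rw [h1, h2, mul_one] at this
    rw [this]
    exact hprod
  -- counting
  have hn : Odd (Finset.univ.filter (fun X => d X = s0)).card := by
    -- the points at distance `s0`
    have hux : u x = 1 := by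
      have : γ x ∈ χ.ker := hker (hγ x)
      exact this
    have hcard1 : Nat.card {y : Ω // u y = s0} * Nat.card (MulAction.stabilizer G x) =
        Nat.card χ.ker := by
      obtain ⟨g0, hg0⟩ := hsur s0
      have e : {g : G // χ g = s0} ≃ χ.ker :=
        { toFun := fun g => ⟨g0⁻¹ * g.1, by
            rw [MonoidHom.mem_ker, map_mul, map_inv, hg0, g.2, inv_mul_cancel]⟩
          invFun := fun k => ⟨g0 * k.1, by
            rw [map_mul, hg0, MonoidHom.mem_ker.1 k.2, mul_one]⟩
          left_inv := fun g => Subtype.ext (by simp)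
          right_inv := fun k => Subtype.ext (by simp) }
      have e' : {g : G // χ g = s0} ≃ {y : Ω // u y = s0} × MulAction.stabilizer G x :=
        { toFun := fun g => (⟨g.1 • x, by rw [hu, hux, mul_one, g.2]⟩,
            ⟨(γ (g.1 • x))⁻¹ * g.1, by
              rw [MulAction.mem_stabilizer_iff, mul_smul, inv_smul_eq_iff, hγ]⟩)
          invFun := fun p => ⟨γ p.1.1 * p.2.1, by
            rw [map_mul, MonoidHom.mem_ker.1 (hker p.2.2), mul_one]
            exact p.1.2⟩
          left_inv := fun g => Subtype.ext (by simp)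
          right_inv := by
            rintro ⟨⟨y, hy⟩, ⟨h, hh⟩⟩
            have h1 : (γ y * h) • x = y := by
              rw [mul_smul, MulAction.mem_stabilizer_iff.1 hh, hγ]
            simp only [Prod.mk.injEq, Subtype.mk.injEq]
            refine ⟨h1, ?_⟩
            rw [h1, inv_mul_cancel_left] }
      rw [← Nat.card_congr e, Nat.card_congr e', Nat.card_prod]
    have hodd1 : Odd (Nat.card {y : Ω // u y = s0}) := by
      rw [← hcard1] at hodd
      exact (Nat.odd_mul.1 hodd).1
    have hodd2 : Odd (Nat.card (MulAction.stabilizer G x)) := by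
      rw [← hcard1] at hodd
      exact (Nat.odd_mul.1 hodd).2
    -- partition according to orbitals
    have hpart : Nat.card {y : Ω // u y = s0} =
        ∑ X ∈ Finset.univ.filter (fun X => d X = s0),
          (Finset.univ.filter (fun y : Ω => orbital G x y = X)).card := by
      rw [Nat.card_eq_fintype_card, Fintype.card_subtype]
      refine (Finset.card_eq_sum_card_fiberwise (f := fun y => orbital G x y)
        (t := Finset.univ.filter (fun X => d X = s0)) ?_).trans ?_
      · intro y hy
        simp only [Finset.coe_filter, Finset.mem_univ, true_and, Set.mem_ofPred_eq] at hy ⊢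
        rw [hd, hux, hy]
        simp
      · refine Finset.sum_congr rfl fun X hX => ?_
        congr 1
        ext y
        simp only [Finset.mem_filter, Finset.mem_univ, true_and, and_iff_right_iff_imp] at hX ⊢
        intro hy
        rw [← hy, hd, hux] at hX
        simpa using hX
    have hfib : ∀ X, Odd (Finset.univ.filter (fun y : Ω => orbital G x y = X)).card := by
      intro X
      obtain ⟨a, b, rfl⟩ := exists_orbital X
      -- it is an orbit of the stabiliser
      let y0 : Ω := (γ a)⁻¹ • b
      have hy0 : orbital G a b = orbital G x y0 := by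
        rw [← orbital_smul (γ a)⁻¹ a b]
        congr 1
        rw [inv_smul_eq_iff, hγ]
      have hset : (Finset.univ.filter (fun y : Ω => orbital G x y = orbital G a b)).card =
          Nat.card (MulAction.orbit (MulAction.stabilizer G x) y0) := by
        rw [← Fintype.card_subtype, ← Nat.card_eq_fintype_card]
        refine Nat.card_congr (Equiv.subtypeEquivRight fun y => ?_)
        rw [hy0, orbital_eq_iff]
        constructor
        · rintro ⟨g, h1, h2⟩
          exact ⟨⟨g, h1⟩, h2⟩
        · rintro ⟨⟨g, h1⟩, h2⟩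
          exact ⟨g, h1, h2⟩
      rw [hset]
      have hdvd : Nat.card (MulAction.orbit (MulAction.stabilizer G x) y0) ∣
          Nat.card (MulAction.stabilizer G x) := by
        rw [Nat.card_congr (MulAction.orbitEquivQuotientStabilizer _ y0)]
        exact Subgroup.card_quotient_dvd_card _
      exact Odd.of_dvd_nat hodd2 hdvd
    by_contra hcon
    rw [Nat.not_odd_iff_even] at hcon
    rw [hpart] at hodd1
    have : ¬ Odd (∑ X ∈ Finset.univ.filter (fun X => d X = s0),
          (Finset.univ.filter (fun y : Ω => orbital G x y = X)).card) := by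
      rw [Finset.odd_sum_iff_odd_card_odd]
      rw [Finset.filter_true_of_mem (fun X _ => hfib X)]
      rwa [Nat.not_odd_iff_even]
    exact this hodd1
  obtain ⟨k, hk⟩ := hn
  rw [hk, pow_succ, pow_mul, pow_two, hs02, one_pow, one_mul] at h3
  exact hs0 h3

/-- **Necessary condition.** A transitive group whose point stabilisers have odd order and whose
Sylow 2-subgroups are cyclic and nontrivial is not realisable. -/
theorem not_realisable_of_cyclic_sylow [Finite G] [Finite Ω] (x : Ω)
    (htr : ∀ y : Ω, ∃ g : G, g • x = y) (hH : Odd (Nat.card (MulAction.stabilizer G x)))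
    (h2 : 2 ∣ Nat.card G) (P : Sylow 2 G) (hP : IsCyclic P) : ¬ RealisableAction G Ω := by
  have hmin : (Nat.card G).minFac = 2 := (Nat.minFac_eq_two_iff _).2 h2
  have hle := hP.normalizer_le_centralizer hmin
  let χ := MonoidHom.transferSylow P hle
  have hcomp : χ.ker.IsComplement' P := hP.isComplement' hmin
  have hndvd : ¬ 2 ∣ Nat.card χ.ker := MonoidHom.not_dvd_card_ker_transferSylow P hle
  have hodd : Odd (Nat.card χ.ker) := by
    rw [← Nat.not_even_iff_odd]
    exact fun h => hndvd h.two_dvd
  let _ : CommGroup P := IsCyclic.commGroup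
  have hsur : Function.Surjective χ := by
    rw [← MonoidHom.range_eq_top]
    apply Subgroup.eq_top_of_card_eq
    rw [← Subgroup.index_ker, hcomp.symm.index_eq_card]
  have heven : Even (Nat.card P) := (even_iff_two_dvd).2 (P.dvd_card_of_dvd_card h2)
  refine not_realisable_of_cyclic_quotient x htr χ hsur hodd heven ?_
  intro h hh
  rw [MonoidHom.mem_ker]
  have h1 : orderOf (χ h) ∣ Nat.card (MulAction.stabilizer G x) := by
    refine (orderOf_map_dvd χ h).trans ?_
    have := orderOf_dvd_natCard (⟨h, hh⟩ : MulAction.stabilizer G x)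
    rwa [Subgroup.orderOf_mk] at this
  have h3 : orderOf (χ h) ∣ Nat.card P := orderOf_dvd_natCard _
  obtain ⟨k, hk⟩ := P.2.exists_card_eq
  rw [hk] at h3
  have hcop : Nat.Coprime (Nat.card (MulAction.stabilizer G x)) (2 ^ k) :=
    (Nat.coprime_two_right.2 hH).pow_right k
  exact orderOf_eq_one_iff.1 (Nat.eq_one_of_dvd_coprimes hcop h1 h3)

end Pool.Agent.Lib.MP_a0202c_co.Odd
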