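import Pool.Agent.Lib.MP_a0202c_co.Local
import Pool.Agent.Lib.MP_a0202c_co.Odd.Match

/-!
Realisability from uniform sets of elements of odd order in a coset of the group.
-/

namespace Pool.Agent.Lib.MP_a0202c_co.Odd

open Pool.Agent.Lib.MP_a0202c_co

/-- The pointwise stabiliser in `G` of the two points `y`, `z`. -/
def pst {Γ : Type*} [Group Γ] {Ω : Type*} [MulAction Γ Ω] (G : Subgroup Γ) (y z : Ω) :
    Subgroup Γ :=
  G ⊓ (MulAction.stabilizer Γ y ⊓ MulAction.stabilizer Γ z)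

variable {Γ : Type*} [Group Γ] {Ω : Type*} [MulAction Γ Ω]

theorem mem_pst {G : Subgroup Γ} {y z : Ω} {g : Γ} :
    g ∈ pst G y z ↔ g ∈ G ∧ g • y = y ∧ g • z = z := Iff.rfl

theorem pst_smul (G : Subgroup Γ) {r : Γ} (hr : r ∈ Subgroup.normalizer (G : Set Γ)) (y z : Ω) :
    pst G (r • y) (r • z) = cj r (pst G y z) := by
  ext g
  rw [mem_cj, mem_pst, mem_pst]
  simp only [mul_smul, inv_smul_eq_iff]
  have : g ∈ G ↔ r⁻¹ * g * r ∈ G := Subgroup.mem_set_normalizer_iff''.1 hr g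
  rw [this]

theorem stab₂_eq (G : Subgroup Γ) (y z : Ω) : stab₂ G y z = (pst G y z).subgroupOf G := by
  ext g
  rw [mem_stab₂, Subgroup.mem_subgroupOf, mem_pst]
  exact ⟨fun h => ⟨g.2, h.1, h.2⟩, fun h => ⟨h.2.1, h.2.2⟩⟩

theorem orbital_eq_iff' {G : Subgroup Γ} {a b a' b' : Ω} :
    orbital G a b = orbital G a' b' ↔ ∃ g ∈ G, g • a' = a ∧ g • b' = b := by
  rw [orbital_eq_iff]
  constructor
  · rintro ⟨g, h1, h2⟩
    exact ⟨g, g.2, h1, h2⟩
  · rintro ⟨g, hg, h1, h2⟩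
    exact ⟨⟨g, hg⟩, h1, h2⟩

/-- An element of odd order is a power of its square. -/
theorem exists_sq_pow {r : Γ} (h : Odd (orderOf r)) : (r ^ 2) ^ ((orderOf r + 1) / 2) = r := by
  obtain ⟨k, hk⟩ := h
  have h1 : 2 * ((orderOf r + 1) / 2) = orderOf r + 1 := by omega
  rw [← pow_mul, h1, pow_succ, pow_orderOf_eq_one, one_mul]

section

variable (G : Subgroup Γ) (x : Ω) (R : Set Γ)

/-- The elements of `R` moving `x` into the orbit of `y` under the stabiliser of `x`. -/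
abbrev FSet (y : Ω) : Type _ :=
  {r : Γ // r ∈ R ∧ ∃ h ∈ G, h • x = x ∧ h • y = r • x}

/-- The elements of `R` moving `x` to `y`. -/
abbrev NSet {Γ : Type*} [Group Γ] {Ω : Type*} [MulAction Γ Ω] (R : Set Γ) (x y : Ω) : Type _ :=
  {r : Γ // r ∈ R ∧ r • x = y}

variable {G x R}

theorem finite_NSet (hH : Finite (pst G x x)) (hc : ∀ r ∈ R, ∀ s ∈ R, r⁻¹ * s ∈ G) (y : Ω) :
    Finite (NSet R x y) := by
  rcases isEmpty_or_nonempty (NSet R x y) with h | ⟨⟨r0, hr0⟩⟩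
  · infer_instance
  · have h1 : ∀ r : NSet R x y, r0⁻¹ * r.1 ∈ pst G x x := by
      intro r
      have h2 : (r0⁻¹ * r.1) • x = x := by
        rw [mul_smul, r.2.2, ← hr0.2, inv_smul_smul]
      exact mem_pst.2 ⟨hc _ hr0.1 _ r.2.1, h2, h2⟩
    refine Finite.of_injective (fun r : NSet R x y => (⟨r0⁻¹ * r.1, h1 r⟩ : pst G x x)) ?_
    intro r s h
    have := congrArg Subtype.val h
    simp only [mul_right_inj] at this
    exact Subtype.ext this

noncomputable def countEquiv (hconj : ∀ g ∈ G, ∀ r ∈ R, g * r * g⁻¹ ∈ R) (y : Ω) :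
    (pst G x x) × NSet R x y ≃ FSet G x R y × pst G x y := by
  classical
  have hc : ∀ s : FSet G x R y, ∃ h : Γ, h ∈ G ∧ h • x = x ∧ h • y = s.1 • x := fun s => s.2.2
  let γ : FSet G x R y → Γ := fun s => (hc s).choose
  have hγ : ∀ s, γ s ∈ G ∧ γ s • x = x ∧ γ s • y = s.1 • x := fun s => (hc s).choose_spec
  have hinv : ∀ {h : Γ} {z w : Ω}, h • z = w → h⁻¹ • w = z := by
    intro h z w e
    rw [← e, inv_smul_smul]
  have hF : ∀ p : (pst G x x) × NSet R x y,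
      (p.1 : Γ) * p.2.1 * (p.1 : Γ)⁻¹ ∈ R ∧
        ∃ h ∈ G, h • x = x ∧ h • y = ((p.1 : Γ) * p.2.1 * (p.1 : Γ)⁻¹) • x := by
    intro p
    have hp := mem_pst.1 p.1.2
    refine ⟨hconj _ hp.1 _ p.2.2.1, p.1, hp.1, hp.2.1, ?_⟩
    rw [mul_smul, mul_smul, hinv hp.2.1, p.2.2.2]
  refine
    { toFun := fun p => (⟨(p.1 : Γ) * p.2.1 * (p.1 : Γ)⁻¹, hF p⟩,
        ⟨(γ ⟨(p.1 : Γ) * p.2.1 * (p.1 : Γ)⁻¹, hF p⟩)⁻¹ * (p.1 : Γ), ?_⟩)
      invFun := fun t => (⟨γ t.1 * (t.2 : Γ), ?_⟩,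
        ⟨(γ t.1 * (t.2 : Γ))⁻¹ * t.1.1 * (γ t.1 * (t.2 : Γ)), ?_, ?_⟩)
      left_inv := ?_
      right_inv := ?_ }
  · rw [mem_pst, mul_smul, mul_smul]
    have h1 := hγ ⟨(p.1 : Γ) * p.2.1 * (p.1 : Γ)⁻¹, hF p⟩
    have hp := mem_pst.1 p.1.2
    refine ⟨G.mul_mem (G.inv_mem h1.1) hp.1, ?_, ?_⟩
    · rw [hp.2.1]
      exact hinv h1.2.1
    · refine hinv ?_
      rw [h1.2.2, mul_smul, mul_smul, hinv hp.2.1, p.2.2.2]
  · have h2 := mem_pst.1 t.2.2
    have h3 : (γ t.1 * (t.2 : Γ)) • x = x := by rw [mul_smul, h2.2.1, (hγ t.1).2.1]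
    exact mem_pst.2 ⟨G.mul_mem (hγ t.1).1 h2.1, h3, h3⟩
  · have := hconj (γ t.1 * (t.2 : Γ))⁻¹
      (G.inv_mem (G.mul_mem (hγ t.1).1 (mem_pst.1 t.2.2).1)) _ t.1.2.1
    rwa [inv_inv] at this
  · rw [mul_smul, mul_smul, mul_smul, (mem_pst.1 t.2.2).2.1, (hγ t.1).2.1, ← (hγ t.1).2.2]
    refine hinv ?_
    rw [mul_smul, (mem_pst.1 t.2.2).2.2]
  · rintro ⟨⟨h, hh⟩, ⟨r, hr⟩⟩
    simp only [Prod.mk.injEq, Subtype.mk.injEq, mul_inv_cancel_left, true_and]
    group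
  · rintro ⟨⟨s, hs⟩, ⟨k, hk⟩⟩
    have e1 : (γ ⟨s, hs⟩ * k) * ((γ ⟨s, hs⟩ * k)⁻¹ * s * (γ ⟨s, hs⟩ * k)) *
        (γ ⟨s, hs⟩ * k)⁻¹ = s := by group
    simp only [Prod.mk.injEq, Subtype.mk.injEq]
    refine ⟨e1, ?_⟩
    have e2 : ∀ (s' : Γ) (hs' : s' ∈ R ∧ ∃ h ∈ G, h • x = x ∧ h • y = s' • x), s' = s →
        (γ ⟨s', hs'⟩)⁻¹ * (γ ⟨s, hs⟩ * k) = k := by
      intro s' hs' e
      subst e
      rw [inv_mul_cancel_left]
    exact e2 _ _ e1

theorem card_count (hconj : ∀ g ∈ G, ∀ r ∈ R, g * r * g⁻¹ ∈ R) (y : Ω) :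
    Nat.card (pst G x x) * Nat.card (NSet R x y) =
      Nat.card (FSet G x R y) * Nat.card (pst G x y) := by
  rw [← Nat.card_prod, ← Nat.card_prod, Nat.card_congr (countEquiv hconj y)]

theorem finite_FSet (hH : Finite (pst G x x)) (hc : ∀ r ∈ R, ∀ s ∈ R, r⁻¹ * s ∈ G)
    (hconj : ∀ g ∈ G, ∀ r ∈ R, g * r * g⁻¹ ∈ R) (y : Ω) : Finite (FSet G x R y) := by
  have := finite_NSet hH hc y
  have h : Finite (FSet G x R y × pst G x y) := Finite.of_equiv _ (countEquiv hconj y)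
  exact Finite.of_surjective (fun t : FSet G x R y × pst G x y => t.1)
    (fun s => ⟨(s, 1), rfl⟩)

end

/-- **Uniform sets of elements of odd order.** -/
theorem realisable_of_oddSet (G : Subgroup Γ) (x : Ω)
    (htr : ∀ y : Ω, ∃ g ∈ G, g • x = y) (hH : Finite (pst G x x)) (α : Γ)
    (hα : α ∈ Subgroup.normalizer (G : Set Γ)) (R : Set Γ)
    (hcos : ∀ r ∈ R, r * α⁻¹ ∈ G)
    (hodd : ∀ r ∈ R, Odd (orderOf r))
    (hconj : ∀ g ∈ G, ∀ r ∈ R, g * r * g⁻¹ ∈ R)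
    (hnorm : ∀ r ∈ R, ∀ y : Ω, r ∈ Subgroup.normalizer (pst G y (r • y) : Set Γ))
    (hnorm2 : ∀ r ∈ R, ∀ y : Ω, r ^ 2 ∈ Subgroup.normalizer (pst G y (r ^ 2 • y) : Set Γ))
    (hunif : ∀ y z y' z' : Ω, y ≠ z → y' ≠ z' → Nat.card (pst G y z) = Nat.card (pst G y' z') →
      0 < Nat.card (NSet R y z) ∧
      Nat.card (NSet R y z) = Nat.card (NSet ((fun r => r ^ 2) '' R) y' z')) :
    RealisableAction G Ω := by
  classical
  let Nm := Subgroup.normalizer (G : Set Γ)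
  have hGN : ∀ g ∈ G, g ∈ Nm := fun g hg => Subgroup.le_normalizer hg
  have hRN : ∀ r ∈ R, r ∈ Nm := by
    intro r hr
    have h1 := Nm.mul_mem (hGN _ (hcos r hr)) hα
    rwa [inv_mul_cancel_right] at h1
  have hcm : ∀ r ∈ Nm, ∀ g ∈ G, r * g * r⁻¹ ∈ G := fun r hr g hg =>
    (Subgroup.mem_set_normalizer_iff.1 hr g).1 hg
  have hcm' : ∀ r ∈ Nm, ∀ g ∈ G, r⁻¹ * g * r ∈ G := fun r hr g hg =>
    (Subgroup.mem_set_normalizer_iff''.1 hr g).1 hg
  -- stabilisers along a progression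
  have hstab : ∀ r ∈ R, ∀ y : Ω, pst G y (r ^ 2 • y) = pst G y (r • y) ∧
      pst G (r • y) (r ^ 2 • y) = pst G y (r • y) := by
    intro r hr y
    have h1 : pst G (r • y) (r ^ 2 • y) = pst G y (r • y) := by
      have : r ^ 2 • y = r • (r • y) := by rw [pow_two, mul_smul]
      rw [this, pst_smul G (hRN r hr)]
      exact cj_eq_iff_mem_normalizer.2 (hnorm r hr y)
    refine ⟨le_antisymm ?_ ?_, h1⟩
    · have h2 := hnorm2 _ hr y
      have h3 : r ∈ Subgroup.normalizer (pst G y (r ^ 2 • y) : Set Γ) := by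
        have h4 := Subgroup.pow_mem _ h2 ((orderOf r + 1) / 2)
        rwa [exists_sq_pow (hodd r hr)] at h4
      rw [← cj_eq_iff_mem_normalizer, ← pst_smul G (hRN r hr)] at h3
      intro g hg
      refine mem_pst.2 ⟨(mem_pst.1 hg).1, (mem_pst.1 hg).2.1, ?_⟩
      rw [← h3] at hg
      exact (mem_pst.1 hg).2.1
    · intro g hg
      refine mem_pst.2 ⟨(mem_pst.1 hg).1, (mem_pst.1 hg).2.1, ?_⟩
      rw [← h1] at hg
      exact (mem_pst.1 hg).2.2
  have hne2 : ∀ r ∈ R, ∀ y : Ω, r • y ≠ y → r ^ 2 • y ≠ y := by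
    intro r hr y hy h
    apply hy
    have h1 : r ^ 2 ∈ MulAction.stabilizer Γ y := h
    have h2 := Subgroup.pow_mem _ h1 ((orderOf r + 1) / 2)
    rw [exists_sq_pow (hodd r hr)] at h2
    exact h2
  -- elements of `R` lie in one coset
  have hc : ∀ r ∈ R, ∀ s ∈ R, r⁻¹ * s ∈ G := by
    intro r hr s hs
    have h1 : r * α⁻¹ * (s * α⁻¹)⁻¹ ∈ G := G.mul_mem (hcos r hr) (G.inv_mem (hcos s hs))
    have h2 : r * s⁻¹ ∈ G := by
      have : r * α⁻¹ * (s * α⁻¹)⁻¹ = r * s⁻¹ := by group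
      rwa [this] at h1
    have h3 := hcm' r (hRN r hr) _ (G.inv_mem h2)
    have : r⁻¹ * (r * s⁻¹)⁻¹ * r = r⁻¹ * s := by group
    rwa [this] at h3
  have hsqi : ∀ r ∈ R, ∀ s ∈ R, r ^ 2 = s ^ 2 → r = s := by
    intro r hr s hs h
    have hN : Odd (orderOf r * orderOf s) := (hodd r hr).mul (hodd s hs)
    obtain ⟨k, hk⟩ := hN
    have h1 : ∀ t : Γ, t ^ (orderOf r * orderOf s) = 1 → t = (t ^ 2) ^ (k + 1) := by
      intro t ht
      rw [← pow_mul]
      have : 2 * (k + 1) = orderOf r * orderOf s + 1 := by omega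
      rw [this, pow_succ, ht, one_mul]
    have hr1 : r ^ (orderOf r * orderOf s) = 1 := by rw [pow_mul, pow_orderOf_eq_one, one_pow]
    have hs1 : s ^ (orderOf r * orderOf s) = 1 := by
      rw [mul_comm, pow_mul, pow_orderOf_eq_one, one_pow]
    rw [h1 r hr1, h1 s hs1, h]
  let R2 : Set Γ := (fun r => r ^ 2) '' R
  have hconj2 : ∀ g ∈ G, ∀ r ∈ R2, g * r * g⁻¹ ∈ R2 := by
    rintro g hg _ ⟨r, hr, rfl⟩
    refine ⟨g * r * g⁻¹, hconj g hg r hr, ?_⟩
    simp only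
    rw [conj_pow]
  have hc2 : ∀ r ∈ R2, ∀ s ∈ R2, r⁻¹ * s ∈ G := by
    rintro _ ⟨r, hr, rfl⟩ _ ⟨s, hs, rfl⟩
    simp only
    have h1 := hc r hr s hs
    have h3 : r⁻¹ * (r⁻¹ * s) * r ∈ G := hcm' r (hRN r hr) _ h1
    have h4 : (r ^ 2)⁻¹ * s ^ 2 = r⁻¹ * (r⁻¹ * s) * r * (r⁻¹ * s) := by
      rw [pow_two, pow_two]; group
    rw [h4]
    exact G.mul_mem h3 h1
  let D : MulAction.orbitRel.Quotient G (Ω × Ω) := orbital G x x
  have hD : ∀ y, orbital G x y = D ↔ y = x := by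
    intro y
    constructor
    · intro h
      obtain ⟨g, _, h1, h2⟩ := orbital_eq_iff'.1 h
      rw [← h2, h1]
    · rintro rfl; rfl
  let P : Type _ := {r : Γ // r ∈ R ∧ r • x ≠ x}
  let O : Type _ := {X : MulAction.orbitRel.Quotient G (Ω × Ω) // X ≠ D}
  let q : P → O := fun r => ⟨orbital G x (r.1 • x), fun h => r.2.2 ((hD _).1 h)⟩
  let q' : P → O := fun r => ⟨orbital G x (r.1 ^ 2 • x),
    fun h => hne2 _ r.2.1 _ r.2.2 ((hD _).1 h)⟩
  have hrep : ∀ X : O, ∃ y : Ω, y ≠ x ∧ orbital G x y = X.1 := by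
    intro X
    obtain ⟨a, b, hab⟩ := exists_orbital X.1
    obtain ⟨g, hg, hga⟩ := htr a
    have h1 : orbital G x (g⁻¹ • b) = X.1 := by
      rw [← hab]
      refine orbital_eq_iff'.2 ⟨g⁻¹, G.inv_mem hg, ?_, rfl⟩
      rw [← hga, inv_smul_smul]
    refine ⟨g⁻¹ • b, fun h => X.2 ?_, h1⟩
    rw [← h1, h]
  have hfib : ∀ (X : O) (y : Ω), y ≠ x → orbital G x y = X.1 →
      Nonempty ((q ⁻¹' {X} : Set P) ≃ FSet G x R y) := by
    intro X y hy hX
    refine ⟨{ toFun := fun p => ⟨p.1.1, p.1.2.1, ?_⟩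
              invFun := fun s => ⟨⟨s.1, s.2.1, ?_⟩, ?_⟩
              left_inv := ?_
              right_inv := ?_ }⟩
    · have h1 : q p.1 = X := p.2
      have h2 : orbital G x (p.1.1 • x) = orbital G x y := by
        rw [hX]
        exact congrArg Subtype.val h1
      obtain ⟨g, hg, h3, h4⟩ := orbital_eq_iff'.1 h2
      exact ⟨g, hg, h3, h4⟩
    · obtain ⟨h, _, h1, h2⟩ := s.2.2
      rw [← h2]
      intro h3
      apply hy
      have : h • y = h • x := by rw [h3, h1]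
      exact smul_left_cancel h this
    · obtain ⟨h, hg, h1, h2⟩ := s.2.2
      refine Subtype.ext ?_
      change orbital G x (s.1 • x) = X.1
      rw [← hX]
      exact orbital_eq_iff'.2 ⟨h, hg, h1, h2⟩
    · intro p; rfl
    · intro s; rfl
  have hfib' : ∀ (X : O) (y : Ω), y ≠ x → orbital G x y = X.1 →
      Nonempty ((q' ⁻¹' {X} : Set P) ≃ FSet G x R2 y) := by
    intro X y hy hX
    let F : (q' ⁻¹' {X} : Set P) → FSet G x R2 y := fun p => ⟨p.1.1 ^ 2, ⟨p.1.1, p.1.2.1, rfl⟩, by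
      have h1 : q' p.1 = X := p.2
      have h2 : orbital G x (p.1.1 ^ 2 • x) = orbital G x y := by
        rw [hX]
        exact congrArg Subtype.val h1
      obtain ⟨g, hg, h3, h4⟩ := orbital_eq_iff'.1 h2
      exact ⟨g, hg, h3, h4⟩⟩
    refine ⟨Equiv.ofBijective F ⟨?_, ?_⟩⟩
    · intro p p' h
      have h1 : p.1.1 ^ 2 = p'.1.1 ^ 2 := congrArg Subtype.val h
      exact Subtype.ext (Subtype.ext (hsqi _ p.1.2.1 _ p'.1.2.1 h1))
    · rintro ⟨s, ⟨r, hr, rfl⟩, h, hg, h1, h2⟩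
      simp only at h2
      have hrx : r • x ≠ x := by
        intro h3
        apply hy
        have h4 : r ^ 2 • x = x := by rw [pow_two, mul_smul, h3, h3]
        have : h • y = h • x := by rw [h2, h4, h1]
        exact smul_left_cancel h this
      refine ⟨⟨⟨r, hr, hrx⟩, ?_⟩, rfl⟩
      refine Subtype.ext ?_
      change orbital G x (r ^ 2 • x) = X.1
      rw [← hX]
      exact orbital_eq_iff'.2 ⟨h, hg, h1, h2⟩
  have hcardF : ∀ (X : O) (y : Ω), y ≠ x → orbital G x y = X.1 →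
      (q ⁻¹' {X}).ncard = Nat.card (FSet G x R y) := by
    intro X y hy hX
    obtain ⟨e⟩ := hfib X y hy hX
    rw [← Nat.card_coe_set_eq]
    exact Nat.card_congr e
  have hcardF' : ∀ (X : O) (y : Ω), y ≠ x → orbital G x y = X.1 →
      (q' ⁻¹' {X}).ncard = Nat.card (FSet G x R2 y) := by
    intro X y hy hX
    obtain ⟨e⟩ := hfib' X y hy hX
    rw [← Nat.card_coe_set_eq]
    exact Nat.card_congr e
  obtain ⟨σ, hσ⟩ := exists_equiv_of_fibres q q' (by
      intro X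
      obtain ⟨y, hy, hX⟩ := hrep X
      obtain ⟨e⟩ := hfib X y hy hX
      have := finite_FSet (x := x) (R := R) hH hc hconj y
      exact Set.finite_coe_iff.1 (Finite.of_equiv _ e.symm)) (by
      intro X
      obtain ⟨y, hy, hX⟩ := hrep X
      have h1 := (hunif x y x y (Ne.symm hy) (Ne.symm hy) rfl).1
      obtain ⟨⟨r, hr, hr'⟩⟩ := (Nat.card_pos_iff.1 h1).1
      refine ⟨⟨r, hr, by rw [hr']; exact hy⟩, ?_⟩
      refine Subtype.ext ?_
      change orbital G x (r • x) = X.1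
      rw [hr', hX]) (by
      intro X
      obtain ⟨y, hy, hX⟩ := hrep X
      obtain ⟨e⟩ := hfib' X y hy hX
      have := finite_FSet (x := x) (R := R2) hH hc2 hconj2 y
      exact Set.finite_coe_iff.1 (Finite.of_equiv _ e.symm)) (by
      intro X
      obtain ⟨y, hy, hX⟩ := hrep X
      have h1 := hunif x y x y (Ne.symm hy) (Ne.symm hy) rfl
      have h2 : 0 < Nat.card (NSet R2 x y) := by rw [← h1.2]; exact h1.1
      obtain ⟨⟨s, ⟨r, hr, rfl⟩, hs⟩⟩ := (Nat.card_pos_iff.1 h2).1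
      simp only at hs
      have hrx : r • x ≠ x := by
        intro h3
        apply hy
        rw [← hs, pow_two, mul_smul, h3, h3]
      refine ⟨⟨r, hr, hrx⟩, ?_⟩
      refine Subtype.ext ?_
      change orbital G x (r ^ 2 • x) = X.1
      rw [hs, hX]) (by
      intro p
      have hp := hstab p.1 p.2.1 x
      have h1 := hcardF' (q' p) (p.1 ^ 2 • x) (hne2 _ p.2.1 _ p.2.2) rfl
      have h2 := hcardF (q p) (p.1 • x) p.2.2 rfl
      rw [h1, h2]
      have c1 := card_count (x := x) (R := R2) hconj2 (p.1 ^ 2 • x)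
      have c2 := card_count (x := x) (R := R) hconj (p.1 • x)
      have c3 := (hunif x (p.1 • x) x (p.1 ^ 2 • x) (Ne.symm p.2.2)
        (Ne.symm (hne2 _ p.2.1 _ p.2.2)) (by rw [hp.1])).2
      rw [← c3, c2, hp.1] at c1
      have hK : 0 < Nat.card (pst G x (p.1 • x)) := by
        have : Finite (pst G x (p.1 • x)) := by
          refine Finite.of_injective (fun g : pst G x (p.1 • x) =>
            (⟨g.1, ⟨(mem_pst.1 g.2).1, (mem_pst.1 g.2).2.1, (mem_pst.1 g.2).2.1⟩⟩ :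
              pst G x x)) ?_
          intro g h e
          exact Subtype.ext (congrArg (fun t : pst G x x => (t : Γ)) e)
        exact Nat.card_pos
      exact (Nat.eq_of_mul_eq_mul_right hK c1).symm)
  -- the permutation of the orbitals induced by `α`
  let A : MulAction.orbitRel.Quotient G (Ω × Ω) → MulAction.orbitRel.Quotient G (Ω × Ω) :=
    Quotient.lift (fun p : Ω × Ω => orbital G (α • p.1) (α • p.2)) (by
      rintro ⟨a, b⟩ ⟨a', b'⟩ h
      obtain ⟨g, hg⟩ := h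
      have h1 : (g : Γ) • a' = a := congrArg Prod.fst hg
      have h2 : (g : Γ) • b' = b := congrArg Prod.snd hg
      subst h1 h2
      simp only
      refine orbital_eq_iff'.2 ⟨α * g * α⁻¹, hcm α hα _ g.2, ?_, ?_⟩
      · rw [mul_smul, mul_smul, inv_smul_smul]
      · rw [mul_smul, mul_smul, inv_smul_smul])
  have hA : ∀ a b, A (orbital G a b) = orbital G (α • a) (α • b) := fun a b => rfl
  have hAb : Function.Bijective A := by
    constructor
    · intro X X' h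
      obtain ⟨a, b, rfl⟩ := exists_orbital X
      obtain ⟨a', b', rfl⟩ := exists_orbital X'
      rw [hA, hA] at h
      obtain ⟨g, hg, h1, h2⟩ := orbital_eq_iff'.1 h
      refine orbital_eq_iff'.2 ⟨α⁻¹ * g * α, hcm' α hα _ hg, ?_, ?_⟩
      · rw [mul_smul, mul_smul, h1, inv_smul_smul]
      · rw [mul_smul, mul_smul, h2, inv_smul_smul]
    · intro X
      obtain ⟨a, b, rfl⟩ := exists_orbital X
      exact ⟨orbital G (α⁻¹ • a) (α⁻¹ • b), by rw [hA, smul_inv_smul, smul_inv_smul]⟩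
  have hAr : ∀ r ∈ R, ∀ a b, orbital G (r • a) (r • b) = A (orbital G a b) := by
    intro r hr a b
    rw [hA]
    refine orbital_eq_iff'.2 ⟨r * α⁻¹, hcos r hr, ?_, ?_⟩
    · rw [mul_smul, inv_smul_smul]
    · rw [mul_smul, inv_smul_smul]
  have hAD : A D = D := by
    obtain ⟨g, hg, hg'⟩ := htr (α • x)
    refine orbital_eq_iff'.2 ⟨g, hg, hg', hg'⟩
  rw [realisableAction_iff_orbital]
  refine ⟨Equiv.Perm.ofSubtype σ, Equiv.ofBijective A hAb, fun X => ?_⟩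
  by_cases hX : X = D
  · subst hX
    refine ⟨x, x, x, rfl, ?_, hAD.symm, rfl, rfl⟩
    rw [Equiv.Perm.ofSubtype_apply_of_not_mem]
    simp
  · obtain ⟨r, hr1, hr2⟩ := hσ ⟨X, hX⟩
    have hp := hstab r.1 r.2.1 x
    have e1 : orbital G x (r.1 • x) = X := congrArg Subtype.val hr1
    have e2 : orbital G x (r.1 ^ 2 • x) = (σ ⟨X, hX⟩).1 := congrArg Subtype.val hr2
    refine ⟨x, r.1 • x, r.1 ^ 2 • x, e1, ?_, ?_, ?_, ?_⟩
    · rw [e2, Equiv.Perm.ofSubtype_apply_of_mem σ hX]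
    · rw [Equiv.ofBijective_apply, ← e1, ← hAr r.1 r.2.1]
      have : r.1 ^ 2 • x = r.1 • (r.1 • x) := by rw [pow_two, mul_smul]
      rw [this]
    · rw [stab₂_eq, stab₂_eq, hp.1]
    · rw [stab₂_eq, stab₂_eq, hp.2]

end Pool.Agent.Lib.MP_a0202c_co.Odd
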