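import Pool.Agent.Lib.MP_a0202c_co.Odd.OddSet
import Pool.Agent.Lib.MP_a0202c_co.Odd.Ext
import Pool.Agent.Lib.MP_a0202c_co.Odd.Nec
import Pool.Agent.Lib.MP_a0202c_co.Odd.HPTwo

/-!
Finite transitive groups with a normal 2-complement and point stabilisers of odd order.
-/

universe u

namespace Pool.Agent.Lib.MP_a0202c_co.Odd

open Pool.Agent.Lib.MP_a0202c_co

variable {G : Type*} [Group G] {Ω : Type*} [MulAction G Ω]

/-- A finite group of odd order all of whose elements normalise the two-point stabilisers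
`G_y ∩ G_{ry}` is realisable in its transitive action. -/
theorem realisable_of_odd [Finite G] (x : Ω) (htr : ∀ y : Ω, ∃ g : G, g • x = y)
    (hodd : Odd (Nat.card G))
    (hnorm : ∀ (r : G) (y : Ω), r ∈ Subgroup.normalizer (stab₂ G y (r • y) : Set G)) :
    RealisableAction G Ω := by
  classical
  have hpst : ∀ y z : Ω, pst (⊤ : Subgroup G) y z = stab₂ G y z := by
    intro y z
    simp [pst, stab₂]
  have hoe : ∀ r : G, Odd (orderOf r) := fun r => Odd.of_dvd_nat hodd (orderOf_dvd_natCard r)
  have hsq : (fun r : G => r ^ 2) '' Set.univ = Set.univ := by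
    refine Set.eq_univ_of_forall fun r => ?_
    exact ⟨r ^ ((orderOf r + 1) / 2), Set.mem_univ _, by
      simp only
      rw [← pow_mul, mul_comm, pow_mul]
      exact exists_sq_pow (hoe r)⟩
  have hN : ∀ y z : Ω, Nat.card (NSet (Set.univ : Set G) y z) =
      Nat.card (MulAction.stabilizer G x) := by
    intro y z
    obtain ⟨g, rfl⟩ := htr y
    obtain ⟨h, rfl⟩ := htr z
    refine Nat.card_congr
      { toFun := fun r => ⟨h⁻¹ * r.1 * g, by
          rw [MulAction.mem_stabilizer_iff, mul_smul, mul_smul, r.2.2, inv_smul_smul]⟩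
        invFun := fun s => ⟨h * s.1 * g⁻¹, Set.mem_univ _, by
          rw [mul_smul, mul_smul, inv_smul_smul, MulAction.mem_stabilizer_iff.1 s.2]⟩
        left_inv := fun r => Subtype.ext (by simp only; group)
        right_inv := fun s => Subtype.ext (by simp only; group) }
  have h := realisable_of_oddSet (⊤ : Subgroup G) x
    (fun y => by obtain ⟨g, hg⟩ := htr y; exact ⟨g, Subgroup.mem_top g, hg⟩)
    inferInstance 1 (Subgroup.one_mem _) Set.univ (fun r _ => Subgroup.mem_top _)
    (fun r _ => hoe r) (fun _ _ _ _ => Set.mem_univ _)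
    (fun r _ y => by rw [hpst]; exact hnorm r y)
    (fun r _ y => by rw [hpst]; exact hnorm _ y)
    (fun y z y' z' _ _ _ => by
      rw [hsq, hN, hN]
      exact ⟨Nat.card_pos, rfl⟩)
  obtain ⟨m, hm, hG⟩ := h
  exact ⟨m, hm, fun g x y => hG ⟨g, Subgroup.mem_top g⟩ x y⟩

theorem complete_of_complement [Finite G] (M : Subgroup G) [M.Normal] (hM : Odd (Nat.card M))
    (k : ℕ) (hk : M.index = 2 ^ k)
    (hP : ¬ (2 ∣ Nat.card G ∧ ∃ P : Sylow 2 G, IsCyclic P)) : HasCompleteMapping (G ⧸ M) := by
  classical
  have hcard : Nat.card (G ⧸ M) = 2 ^ k := by rw [← Subgroup.index_eq_card, hk]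
  have hp : IsPGroup 2 (G ⧸ M) := IsPGroup.of_card hcard
  refine hasCompleteMapping_of_two_group _ _ rfl hp ?_
  by_cases h1 : Nat.card (G ⧸ M) = 1
  · exact Or.inl h1
  refine Or.inr fun hcyc => hP ⟨?_, ?_⟩
  · have hk0 : k ≠ 0 := by
      rintro rfl
      exact h1 (by rw [hcard, pow_zero])
    have h2 : M.index ∣ Nat.card G := M.index_dvd_card
    rw [hk] at h2
    exact (dvd_pow_self 2 hk0).trans h2
  · obtain ⟨P⟩ : Nonempty (Sylow 2 G) := inferInstance
    refine ⟨P, ?_⟩
    -- the projection restricted to `P` is injective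
    let f : P →* G ⧸ M := (QuotientGroup.mk' M).comp P.1.subtype
    have hf : Function.Injective f := by
      rw [← MonoidHom.ker_eq_bot_iff, Subgroup.eq_bot_iff_forall]
      intro g hg
      have hgM : (g : G) ∈ M := by
        rw [MonoidHom.mem_ker] at hg
        exact (QuotientGroup.eq_one_iff _).1 hg
      have h3 : orderOf (g : G) ∣ Nat.card M := by
        have := orderOf_dvd_natCard (⟨g, hgM⟩ : M)
        rwa [Subgroup.orderOf_mk] at this
      obtain ⟨s, hs⟩ := (IsPGroup.iff_orderOf.1 P.2) g
      rw [Subgroup.orderOf_coe, hs] at h3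
      have h4 : 2 ^ s = 1 := by
        have hcop : Nat.Coprime (Nat.card M) (2 ^ s) := (Nat.coprime_two_right.2 hM).pow_right s
        exact Nat.eq_one_of_dvd_coprimes hcop h3 dvd_rfl
      rw [h4] at hs
      exact orderOf_eq_one_iff.1 hs
    exact isCyclic_of_injective f hf

/-- Subgroups of the same order of a finite cyclic subgroup coincide. -/
theorem eq_of_le_cyclic [Finite G] {C K L : Subgroup G} (hC : IsCyclic C) (hK : K ≤ C)
    (hL : L ≤ C) (hcard : Nat.card K = Nat.card L) : K = L := by
  classical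
  have : Fintype C := Fintype.ofFinite C
  let S : Finset C := Finset.univ.filter (fun a : C => a ^ Nat.card K = 1)
  have hS : S.card ≤ Nat.card K := IsCyclic.card_pow_eq_one_le Nat.card_pos
  have hsub : ∀ J : Subgroup G, J ≤ C → Nat.card J = Nat.card K →
      ∀ g : G, g ∈ J ↔ ∃ c ∈ S, (c : G) = g := by
    intro J hJ hJK
    let T : Finset C := Finset.univ.filter (fun a : C => (a : G) ∈ J)
    have hTS : T ⊆ S := by
      intro a ha
      simp only [T, Finset.mem_filter, Finset.mem_univ, true_and] at ha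
      simp only [S, Finset.mem_filter, Finset.mem_univ, true_and]
      rw [← hJK]
      have h1 : (⟨(a : G), ha⟩ : J) ^ Nat.card J = 1 := pow_card_eq_one'
      have h2 := congrArg (fun z : J => (z : G)) h1
      simp only [Subgroup.coe_pow, Subgroup.coe_one] at h2
      exact Subtype.ext (by simpa using h2)
    have hTcard : T.card = Nat.card J := by
      rw [← Fintype.card_subtype, ← Nat.card_eq_fintype_card]
      exact Nat.card_congr
        { toFun := fun a => ⟨a.1.1, a.2⟩
          invFun := fun a => ⟨⟨a.1, hJ a.2⟩, a.2⟩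
          left_inv := fun a => rfl
          right_inv := fun a => rfl }
    have hTe : T = S := Finset.eq_of_subset_of_card_le hTS (by rw [hTcard, hJK]; exact hS)
    intro g
    rw [← hTe]
    constructor
    · intro hg
      exact ⟨⟨g, hJ hg⟩, by simpa [T] using hg, rfl⟩
    · rintro ⟨c, hc, rfl⟩
      simpa [T] using hc
  ext g
  rw [hsub K hK rfl g, hsub L hL hcard.symm g]

theorem normalizer_of_cyclic [Finite G]
    (hcyc : ∀ y : Ω, IsCyclic (MulAction.stabilizer G y)) (r : G) (y : Ω) :
    r ∈ Subgroup.normalizer (stab₂ G y (r • y) : Set G) := by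
  rw [← cj_eq_iff_mem_normalizer]
  refine eq_of_le_cyclic (hcyc (r • y)) ?_ inf_le_right ?_
  · rw [← stab₂_smul]
    exact inf_le_left
  · exact Subgroup.card_map_of_injective (MulAut.conj r).injective

/-- **Main criterion.** -/
theorem realisable_of_odd_normal [Finite G] (x : Ω)
    (htr : ∀ y : Ω, ∃ g : G, g • x = y)
    (M : Subgroup G) [M.Normal] (hM : Odd (Nat.card M)) (hHM : MulAction.stabilizer G x ≤ M)
    (hF : ∀ y : Ω, ∃ m ∈ M, ∀ g : G, g • x = x → g • (m • y) = m • y)
    (hnorm : ∀ r ∈ M, ∀ y : Ω, r ∈ Subgroup.normalizer (stab₂ G y (r • y) : Set G))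
    (hθ : HasCompleteMapping (G ⧸ M)) : RealisableAction G Ω := by
  classical
  refine realisable_of_extension x htr M hHM ?_ ?_ hθ
  · intro g
    obtain ⟨m, hm, hmf⟩ := hF (g • x)
    refine ⟨m * g, ?_, ?_⟩
    · -- `m g` normalises the stabiliser
      have hle : MulAction.stabilizer G x ≤ cj (m * g) (MulAction.stabilizer G x) := by
        intro h hh
        rw [mem_cj, MulAction.mem_stabilizer_iff]
        have h1 := hmf h hh
        rw [mul_smul, mul_smul, inv_smul_eq_iff, mul_smul]
        exact h1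
      have hcard : Nat.card (cj (m * g) (MulAction.stabilizer G x)) =
          Nat.card (MulAction.stabilizer G x) :=
        Subgroup.card_map_of_injective (MulAut.conj (m * g)).injective
      have heq : MulAction.stabilizer G x = cj (m * g) (MulAction.stabilizer G x) :=
        Subgroup.eq_of_le_of_card_ge hle hcard.le
      exact cj_eq_iff_mem_normalizer.1 heq.symm
    · have : g⁻¹ * (m * g) = g⁻¹ * m * g⁻¹⁻¹ := by group
      rw [this]
      exact Subgroup.Normal.conj_mem inferInstance m hm g⁻¹
  · -- `M` acting on the orbit of `x`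
    refine realisable_of_odd (G := M) (Ω := MulAction.orbit M x)
      ⟨x, MulAction.mem_orbit_self x⟩ ?_ hM ?_
    · rintro ⟨y, ⟨m, hm⟩⟩
      exact ⟨m, Subtype.ext hm⟩
    · intro r y
      have key : ∀ g : M, g ∈ stab₂ M y (r • y) ↔
          (g : G) ∈ stab₂ G (y : Ω) ((r : G) • (y : Ω)) := by
        intro g
        rw [mem_stab₂, mem_stab₂, Subtype.ext_iff, Subtype.ext_iff]
        rfl
      have h1 := hnorm r r.2 (y : Ω)
      rw [Subgroup.mem_set_normalizer_iff] at h1 ⊢
      intro g
      change g ∈ stab₂ M y (r • y) ↔ r * g * r⁻¹ ∈ stab₂ M y (r • y)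
      rw [key, key]
      exact h1 g

end Pool.Agent.Lib.MP_a0202c_co.Odd
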